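import Mathlib
import Pool.Agent.H.MP_0335f8_al.helper41.Chev

/-!
# The groups of Lie type given by a simply laced Cartan matrix, a symmetry of its diagram and an
automorphism of the field (definitions)
-/

namespace H41G

open H41Chev

/-- the root elements of a twisted group: let `r` be a root with the orbit `r, p r, ..., p^(m-1) r`
of length `m` under the symmetry `p` of the diagram, and let `t` be an element of the field with
`φ^m t = t`; the root element is the product of the `exp (φ^i(t) ad e_(p^i r))`, `i < m` -/
def steinbergSet {n : ℕ} (A : Matrix (Fin n) (Fin n) ℤ) (p : Fin n → Fin n) {K : Type*} [Field K]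
    (φ : K ≃+* K) : Set (GLM A K) :=
  {g | ∃ (r : ℕ → Root A) (m : ℕ) (t : K), (∀ i, (r (i + 1)).1 = (r i).1 ∘ p) ∧
    (∀ i, r i = r 0 ↔ m ∣ i) ∧ φ^[m] t = t ∧
    ∀ x : LieMod A K, g x = (List.range m).foldr (fun i y => rootFun A (r i) (φ^[i] t) y) x}

/-- the group generated by the root elements: the Chevalley group of type `A` over `K` if `p` and
`φ` are trivial -/
def SteinbergGroup {n : ℕ} (A : Matrix (Fin n) (Fin n) ℤ) (p : Fin n → Fin n) {K : Type*} [Field K]
    (φ : K ≃+* K) : Subgroup (GLM A K) := Subgroup.closure (steinbergSet A p φ)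

end H41G
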