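import Mathlib
import Pool.Agent.H.MP_0335f8_al.helper41g.GDefs
import Pool.Agent.H.MP_0335f8_al.helper41.Conj2
import Pool.Agent.H.MP_0335f8_al.helper41.Odd
import Pool.Agent.H.MP_0335f8_al.helper41.Ex

/-!
# The root lattice `D₄` with its symmetry of order three
-/

namespace H41G

open H41Chev

/-- the Cartan matrix of type `D₄`, the central node last -/
def B4 : Matrix (Fin 4) (Fin 4) ℤ :=
  !![2, 0, 0, -1; 0, 2, 0, -1; 0, 0, 2, -1; -1, -1, -1, 2]

theorem ip4 (u v : Fin 4 → ℤ) : ip B4 u v =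
    2 * u 0 * v 0 + 2 * u 1 * v 1 + 2 * u 2 * v 2 + 2 * u 3 * v 3
    - u 0 * v 3 - u 3 * v 0 - u 1 * v 3 - u 3 * v 1 - u 2 * v 3 - u 3 * v 2 := by
  simp only [ip, B4, Fin.sum_univ_four, Matrix.of_apply, Matrix.cons_val]
  ring

theorem hf4 (u v : Fin 4 → ℤ) : hf B4 u v =
    u 0 * v 0 + u 1 * v 1 + u 2 * v 2 + u 3 * v 3 - u 0 * v 3 - u 1 * v 3 - u 2 * v 3 := by
  have h : ∀ i j : Fin 4, (if i < j then B4 i j else if i = j then 1 else 0 : ℤ) =
    (!![1, 0, 0, -1; 0, 1, 0, -1; 0, 0, 1, -1; 0, 0, 0, 1] : Matrix (Fin 4) (Fin 4) ℤ) i j := by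
    decide +kernel
  have e : hf B4 u v = ∑ i, ∑ j, u i *
    (!![1, 0, 0, -1; 0, 1, 0, -1; 0, 0, 1, -1; 0, 0, 0, 1] : Matrix (Fin 4) (Fin 4) ℤ) i j * v j :=
    Finset.sum_congr rfl fun i _ => Finset.sum_congr rfl fun j _ => by rw [h]
  rw [e]
  simp only [Fin.sum_univ_four, Matrix.of_apply, Matrix.cons_val]
  ring

theorem good4 : Good B4 where
  symm := by decide +kernel
  diag := by decide +kernel
  pos v hv := by
    by_contra h
    apply hv
    have e : 2 * ip B4 v v = (2 * v 0 - v 3) ^ 2 + (2 * v 1 - v 3) ^ 2 + (2 * v 2 - v 3) ^ 2 +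
        v 3 ^ 2 := by
      rw [ip4]; ring
    have h0 := sq_nonneg (2 * v 0 - v 3)
    have h1 := sq_nonneg (2 * v 1 - v 3)
    have h2 := sq_nonneg (2 * v 2 - v 3)
    have h3 := sq_nonneg (v 3)
    have g0 := sqz (a := 2 * v 0 - v 3) (by linarith)
    have g1 := sqz (a := 2 * v 1 - v 3) (by linarith)
    have g2 := sqz (a := 2 * v 2 - v 3) (by linarith)
    have g3 := sqz (a := v 3) (by linarith)
    ext i
    fin_cases i
    · show v 0 = 0; omega
    · show v 1 = 0; omega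
    · show v 2 = 0; omega
    · show v 3 = 0; omega

/-- the symmetry of order three of the diagram, on the nodes -/
def pr : Fin 4 → Fin 4 := ![2, 0, 1, 3]

/-- the symmetry, on the root lattice -/
def tri (v : Fin 4 → ℤ) : Fin 4 → ℤ := v ∘ pr

@[simp] theorem tri_0 (v : Fin 4 → ℤ) : tri v 0 = v 2 := rfl
@[simp] theorem tri_1 (v : Fin 4 → ℤ) : tri v 1 = v 0 := rfl
@[simp] theorem tri_2 (v : Fin 4 → ℤ) : tri v 2 = v 1 := rfl
@[simp] theorem tri_3 (v : Fin 4 → ℤ) : tri v 3 = v 3 := rfl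

theorem ext4 {u v : Fin 4 → ℤ} (h0 : u 0 = v 0) (h1 : u 1 = v 1) (h2 : u 2 = v 2)
    (h3 : u 3 = v 3) : u = v := by
  ext i; fin_cases i <;> assumption

theorem tri_neg (u : Fin 4 → ℤ) : tri (-u) = - tri u := rfl

theorem tri_tri (u : Fin 4 → ℤ) : tri (tri (tri u)) = u := by
  apply ext4 <;> rfl

theorem ip_tri (u v : Fin 4 → ℤ) : ip B4 (tri u) (tri v) = ip B4 u v := by
  rw [ip4, ip4]; simp only [tri_0, tri_1, tri_2, tri_3]; ring

theorem cs4 : ∀ a b c d : Fin 5, ip B4 ![(a : ℤ) - 2, (b : ℤ) - 2, (c : ℤ) - 2, (d : ℤ) - 2]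
    ![(a : ℤ) - 2, (b : ℤ) - 2, (c : ℤ) - 2, (d : ℤ) - 2] = 2 →
    (![(a : ℤ) - 2, (b : ℤ) - 2, (c : ℤ) - 2, (d : ℤ) - 2] : Fin 4 → ℤ) ∈
      ([![0, 0, 0, 1], ![1, 1, 1, 1], ![1, 1, 1, 2], ![0, 0, 0, -1], ![-1, -1, -1, -1],
        ![-1, -1, -1, -2],
        ![1, 0, 0, 0], ![1, 0, 0, 1], ![0, 1, 1, 1],
        ![-1, 0, 0, 0], ![-1, 0, 0, -1], ![0, -1, -1, -1],
        ![0, 1, 0, 0], ![0, 1, 0, 1], ![1, 0, 1, 1],
        ![0, -1, 0, 0], ![0, -1, 0, -1], ![-1, 0, -1, -1],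
        ![0, 0, 1, 0], ![0, 0, 1, 1], ![1, 1, 0, 1],
        ![0, 0, -1, 0], ![0, 0, -1, -1], ![-1, -1, 0, -1]] : List (Fin 4 → ℤ)) := by
  decide +kernel

/-- the roots of `D₄` -/
theorem roots4 {v : Fin 4 → ℤ} (hv : ip B4 v v = 2) : v ∈
      ([![0, 0, 0, 1], ![1, 1, 1, 1], ![1, 1, 1, 2], ![0, 0, 0, -1], ![-1, -1, -1, -1],
        ![-1, -1, -1, -2],
        ![1, 0, 0, 0], ![1, 0, 0, 1], ![0, 1, 1, 1],
        ![-1, 0, 0, 0], ![-1, 0, 0, -1], ![0, -1, -1, -1],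
        ![0, 1, 0, 0], ![0, 1, 0, 1], ![1, 0, 1, 1],
        ![0, -1, 0, 0], ![0, -1, 0, -1], ![-1, 0, -1, -1],
        ![0, 0, 1, 0], ![0, 0, 1, 1], ![1, 1, 0, 1],
        ![0, 0, -1, 0], ![0, 0, -1, -1], ![-1, -1, 0, -1]] : List (Fin 4 → ℤ)) := by
  have e : 2 * ip B4 v v = (2 * v 0 - v 3) ^ 2 + (2 * v 1 - v 3) ^ 2 + (2 * v 2 - v 3) ^ 2 +
      v 3 ^ 2 := by
    rw [ip4]; ring
  have h0 := sq_nonneg (2 * v 0 - v 3)
  have h1 := sq_nonneg (2 * v 1 - v 3)
  have h2 := sq_nonneg (2 * v 2 - v 3)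
  have h3 := sq_nonneg (v 3)
  have sm : ∀ a : ℤ, a ^ 2 ≤ 4 → -2 ≤ a ∧ a ≤ 2 := fun a ha =>
    ⟨by nlinarith, by nlinarith⟩
  have g0 := sm (2 * v 0 - v 3) (by linarith)
  have g1 := sm (2 * v 1 - v 3) (by linarith)
  have g2 := sm (2 * v 2 - v 3) (by linarith)
  have g3 := sm (v 3) (by linarith)
  have key : ∀ x : ℤ, -2 ≤ x → x ≤ 2 → ∃ a : Fin 5, x = (a : ℤ) - 2 := by
    intro x h h'
    refine ⟨⟨(x + 2).toNat, by omega⟩, ?_⟩
    show x = (((x + 2).toNat : ℕ) : ℤ) - 2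
    omega
  obtain ⟨a, ha⟩ := key (v 0) (by omega) (by omega)
  obtain ⟨b, hb⟩ := key (v 1) (by omega) (by omega)
  obtain ⟨c, hc⟩ := key (v 2) (by omega) (by omega)
  obtain ⟨d, hd⟩ := key (v 3) (by omega) (by omega)
  have ev : v = ![(a : ℤ) - 2, (b : ℤ) - 2, (c : ℤ) - 2, (d : ℤ) - 2] := by
    apply ext4
    · exact ha
    · exact hb
    · exact hc
    · exact hd
  rw [ev] at hv ⊢
  exact cs4 a b c d hv

variable {K : Type*} [Field K]

/-- the root element of an orbit of length three -/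
def Y (φ : K ≃+* K) (v : Fin 4 → ℤ) (t : K) : GLM B4 K :=
  X good4 v t * X good4 (tri v) (φ t) * X good4 (tri (tri v)) (φ (φ t))

/-- the group: `G₂(K)` if `φ = 1`, and the triality group if `φ` has order three -/
def TG (φ : K ≃+* K) : Subgroup (GLM B4 K) := SteinbergGroup B4 pr φ

theorem X_tg {φ : K ≃+* K} {v : Fin 4 → ℤ} {t : K} (hv : tri v = v) (ht : φ t = t) :
    X good4 v t ∈ TG φ := by
  by_cases h : ip B4 v v = 2
  · refine Subgroup.subset_closure ⟨fun _ => ⟨v, h⟩, 1, t, fun _ => hv.symm, fun i => ?_, ht,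
      fun x => ?_⟩
    · simp
    · exact X_ap good4 h t x
  · rw [X_not good4 h]; exact Subgroup.one_mem _

theorem Y_tg {φ : K ≃+* K} (hφ : ∀ x, φ (φ (φ x)) = x) {v : Fin 4 → ℤ} (hv : tri v ≠ v) (t : K) :
    Y φ v t ∈ TG φ := by
  by_cases h : ip B4 v v = 2
  · have h1 : ip B4 (tri v) (tri v) = 2 := by rw [ip_tri, h]
    have h2 : ip B4 (tri (tri v)) (tri (tri v)) = 2 := by rw [ip_tri, h1]
    have it : ∀ i : ℕ, ip B4 (tri^[i] v) (tri^[i] v) = 2 := by
      intro i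
      induction i with
      | zero => exact h
      | succ i ih => rw [Function.iterate_succ_apply', ip_tri, ih]
    have i3 : tri^[3] v = v := tri_tri v
    have hv2 : tri (tri v) ≠ v := by
      intro h'
      apply hv
      have := congrArg tri h'
      rw [tri_tri] at this
      exact this.symm
    refine Subgroup.subset_closure ⟨fun i => ⟨tri^[i] v, it i⟩, 3, t, fun i => ?_, fun i => ?_,
      hφ t, fun x => ?_⟩
    · show tri^[i + 1] v = _
      rw [Function.iterate_succ_apply']; rfl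
    · constructor
      · intro e
        have e' : tri^[i] v = v := congrArg Subtype.val e
        have hm : tri^[i % 3] v = v := by
          have := Function.IsPeriodicPt.iterate_mod_apply (f := tri) (x := v) (n := 3) i3 i
          rw [this, e']
        have h3 : i % 3 = 0 ∨ i % 3 = 1 ∨ i % 3 = 2 := by omega
        rcases h3 with h3 | h3 | h3
        · omega
        · rw [h3] at hm; exact absurd hm hv
        · rw [h3] at hm; exact absurd hm hv2
      · rintro ⟨k, rfl⟩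
        apply Subtype.ext
        show tri^[3 * k] v = v
        rw [Function.iterate_mul]
        exact Function.iterate_fixed i3 k
    · show X good4 v t (X good4 (tri v) (φ t) (X good4 (tri (tri v)) (φ (φ t)) x)) = _
      rw [X_ap good4 h, X_ap good4 h1, X_ap good4 h2]; rfl
  · unfold Y
    rw [X_not good4 h, X_not good4 (by rwa [ip_tri]), X_not good4 (by rwa [ip_tri, ip_tri]),
      one_mul, one_mul]
    exact Subgroup.one_mem _

theorem TG_le {φ : K ≃+* K} {L : Subgroup (GLM B4 K)}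
    (h1 : ∀ v t, ip B4 v v = 2 → tri v = v → φ t = t → X good4 v t ∈ L)
    (h3 : ∀ v t, ip B4 v v = 2 → tri v ≠ v → Y φ v t ∈ L) : TG φ ≤ L := by
  refine (Subgroup.closure_le _).2 ?_
  rintro g ⟨r, m, t, hr, hm, ht, hg⟩
  have r1 : (r 1).1 = tri (r 0).1 := hr 0
  have r2 : (r 2).1 = tri (tri (r 0).1) := by rw [← r1]; exact hr 1
  have r3 : r 3 = r 0 := by
    apply Subtype.ext
    rw [show (r 3).1 = tri (r 2).1 from hr 2, r2, tri_tri]
  have m3 : m ∣ 3 := (hm 3).1 r3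
  rcases (Nat.dvd_prime Nat.prime_three).1 m3 with rfl | rfl
  · have f : tri (r 0).1 = (r 0).1 := by
      rw [← r1]; exact congrArg Subtype.val ((hm 1).2 (one_dvd _))
    have : g = X good4 (r 0).1 t := by
      refine gl_ext fun x => ?_
      rw [X_ap good4 (r 0).2, hg x]; rfl
    rw [this]
    exact h1 _ _ (r 0).2 f ht
  · have f : tri (r 0).1 ≠ (r 0).1 := by
      rw [← r1]; intro h
      have := (hm 1).1 (Subtype.ext h)
      omega
    have : g = Y φ (r 0).1 t := by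
      refine gl_ext fun x => ?_
      have i1 : ip B4 (tri (r 0).1) (tri (r 0).1) = 2 := by rw [← r1]; exact (r 1).2
      have i2 : ip B4 (tri (tri (r 0).1)) (tri (tri (r 0).1)) = 2 := by rw [← r2]; exact (r 2).2
      show g x = X good4 (r 0).1 t (X good4 (tri (r 0).1) (φ t)
        (X good4 (tri (tri (r 0).1)) (φ (φ t)) x))
      rw [X_ap good4 (r 0).2, X_ap good4 i1, X_ap good4 i2, hg x]
      have e1 : r 1 = ⟨tri (r 0).1, i1⟩ := Subtype.ext r1
      have e2 : r 2 = ⟨tri (tri (r 0).1), i2⟩ := Subtype.ext r2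
      rw [← e1, ← e2]; rfl
    rw [this]
    exact h3 _ _ (r 0).2 f

end H41G
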