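import Mathlib
import Pool.Agent.H.MP_0335f8_al.helper41g.GBase

/-!
# Products of root elements in characteristic two: a verified rewriting
-/

namespace H41G

open H41Chev

variable {K : Type*} [Field K] {φ : K ≃+* K}

/-- a list of roots with six exponents -/
abbrev XL : Type := List ((Fin 4 → ℤ) × (Fin 6 → ℕ))

/-- the monomial -/
def mon (val : Fin 6 → K) (e : Fin 6 → ℕ) : K := ∏ i, val i ^ e i

theorem mon_add (val : Fin 6 → K) (e f : Fin 6 → ℕ) :
    mon val (e + f) = mon val e * mon val f := by
  unfold mon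
  rw [← Finset.prod_mul_distrib]
  exact Finset.prod_congr rfl fun i _ => by rw [Pi.add_apply, pow_add]

theorem mon_eq (val : Fin 6 → K) (a b c d e f : ℕ) : mon val ![a, b, c, d, e, f] =
    val 0 ^ a * val 1 ^ b * val 2 ^ c * val 3 ^ d * val 4 ^ e * val 5 ^ f := by
  unfold mon
  rw [Fin.prod_univ_six]
  rfl

/-- the product of root elements whose parameters are monomials -/
def XM (val : Fin 6 → K) : XL → GLM B4 K
  | [] => 1
  | e :: l => X good4 e.1 (mon val e.2) * XM val l

theorem XM_append (val : Fin 6 → K) (l l' : XL) :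
    (XM val (l ++ l') : GLM B4 K) = XM val l * XM val l' := by
  induction l with
  | nil => simp [XM]
  | cons e l ih =>
    show X good4 e.1 _ * XM val (l ++ l') = X good4 e.1 _ * XM val l * XM val l'
    rw [ih, mul_assoc]

theorem XM_reverse (hK : (2 : K) = 0) (val : Fin 6 → K) (l : XL) :
    (XM val l.reverse : GLM B4 K) = (XM val l)⁻¹ := by
  induction l with
  | nil => simp [XM]
  | cons e l ih =>
    rw [List.reverse_cons, XM_append, ih]
    show (XM val l)⁻¹ * (X good4 e.1 _ * 1) = (X good4 e.1 _ * XM val l)⁻¹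
    rw [mul_inv_rev, mul_one, inv_eq_of_mul_eq_one_left (X_two good4 hK e.1 _)]

/-- one rewriting step: position and kind (`0`: exchange, `1`: commutator, `2`: cancellation) -/
def stp (l : XL) (o : ℕ × ℕ) : XL :=
  match l.drop o.1 with
  | e :: f :: t =>
    if o.2 = 0 then (if 0 ≤ ip B4 e.1 f.1 then l.take o.1 ++ f :: e :: t else l)
    else if o.2 = 1 then
      (if ip B4 e.1 f.1 = -1 then l.take o.1 ++ (e.1 + f.1, e.2 + f.2) :: f :: e :: t else l)
    else (if e = f then l.take o.1 ++ t else l)
  | _ => l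

/-- a sequence of rewriting steps -/
def rw4 : List (ℕ × ℕ) → XL → XL
  | [], l => l
  | o :: os, l => rw4 os (stp l o)

/-- all entries are roots -/
def Rts (l : XL) : Prop := ∀ e ∈ l, ip B4 e.1 e.1 = 2

instance (l : XL) : Decidable (Rts l) := by unfold Rts; infer_instance

theorem Rts_append {l l' : XL} (h : Rts l) (h' : Rts l') : Rts (l ++ l') := by
  intro e he
  rcases List.mem_append.1 he with h1 | h1
  · exact h e h1
  · exact h' e h1

theorem Rts_reverse {l : XL} (h : Rts l) : Rts l.reverse := fun e he => h e (List.mem_reverse.1 he)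

theorem stp_ok (hK : (2 : K) = 0) (val : Fin 6 → K) {l : XL} (h : Rts l) (o : ℕ × ℕ) :
    (XM val (stp l o) : GLM B4 K) = XM val l ∧ Rts (stp l o) := by
  have hl : l = l.take o.1 ++ l.drop o.1 := (List.take_append_drop _ _).symm
  rcases hd : l.drop o.1 with _ | ⟨e, _ | ⟨f, t⟩⟩
  · have : stp l o = l := by unfold stp; rw [hd]
    rw [this]; exact ⟨rfl, h⟩
  · have : stp l o = l := by unfold stp; rw [hd]
    rw [this]; exact ⟨rfl, h⟩
  · have hs : stp l o = if o.2 = 0 then (if 0 ≤ ip B4 e.1 f.1 then l.take o.1 ++ f :: e :: t else l)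
      else if o.2 = 1 then
        (if ip B4 e.1 f.1 = -1 then
          l.take o.1 ++ (e.1 + f.1, e.2 + f.2) :: f :: e :: t else l)
      else (if e = f then l.take o.1 ++ t else l) := by
      unfold stp; rw [hd]
    rw [hd] at hl
    have ht : ∀ x ∈ l.take o.1, ip B4 x.1 x.1 = 2 := fun x hx => h x (List.mem_of_mem_take hx)
    have he : ip B4 e.1 e.1 = 2 := h e (by rw [hl]; simp)
    have hf : ip B4 f.1 f.1 = 2 := h f (by rw [hl]; simp)
    have htt : ∀ x ∈ t, ip B4 x.1 x.1 = 2 := fun x hx => h x (by rw [hl]; simp [hx])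
    have key : ∀ m : XL, (XM val m : GLM B4 K) = XM val (e :: f :: t) → Rts m →
        (XM val (l.take o.1 ++ m) : GLM B4 K) = XM val l ∧ Rts (l.take o.1 ++ m) := by
      intro m h1 h2
      refine ⟨?_, Rts_append ht h2⟩
      conv_rhs => rw [hl]
      rw [XM_append, XM_append, h1]
    rw [hs]
    split_ifs with h1 h2 h2 h3 h3
    · refine key _ ?_ ?_
      · show X good4 f.1 _ * (X good4 e.1 _ * XM val t) = X good4 e.1 _ * (X good4 f.1 _ * XM val t)
        rw [← mul_assoc, ← X_comm good4 h2, mul_assoc]
      · intro x hx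
        simp only [List.mem_cons] at hx
        rcases hx with rfl | rfl | hx
        · exact hf
        · exact he
        · exact htt x hx
    · exact ⟨rfl, h⟩
    · refine key _ ?_ ?_
      · show X good4 (e.1 + f.1) (mon val (e.2 + f.2)) *
          (X good4 f.1 _ * (X good4 e.1 _ * XM val t)) =
          X good4 e.1 _ * (X good4 f.1 _ * XM val t)
        have c := X_com (K := K) good4 he hf h3 (mon val e.2) (mon val f.2)
        rw [cast_one (eps_sq _ _) hK, one_mul] at c
        rw [mon_add, ← mul_assoc (X good4 e.1 _), c]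
        group
      · intro x hx
        simp only [List.mem_cons] at hx
        rcases hx with rfl | rfl | rfl | hx
        · exact root_add good4 he hf h3
        · exact hf
        · exact he
        · exact htt x hx
    · exact ⟨rfl, h⟩
    · refine key _ ?_ htt
      subst h3
      show XM val t = X good4 e.1 _ * (X good4 e.1 _ * XM val t)
      rw [← mul_assoc, X_two good4 hK, one_mul]
    · exact ⟨rfl, h⟩

theorem rw4_ok (hK : (2 : K) = 0) (val : Fin 6 → K) {l : XL} (h : Rts l) (os : List (ℕ × ℕ)) :
    (XM val (rw4 os l) : GLM B4 K) = XM val l ∧ Rts (rw4 os l) := by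
  induction os generalizing l with
  | nil => exact ⟨rfl, h⟩
  | cons o os ih =>
    obtain ⟨h1, h2⟩ := stp_ok (K := K) hK val h o
    obtain ⟨h3, h4⟩ := ih h2
    exact ⟨h3.trans h1, h4⟩

/-- equality of two products -/
theorem XM_eq (hK : (2 : K) = 0) (val : Fin 6 → K) {l l' : XL} (os os' : List (ℕ × ℕ))
    (e : Rts l ∧ Rts l' ∧ rw4 os l = rw4 os' l') : (XM val l : GLM B4 K) = XM val l' := by
  obtain ⟨h, h', e⟩ := e
  rw [← (rw4_ok (K := K) hK val h os).1, e, (rw4_ok (K := K) hK val h' os').1]

end H41G
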