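import Mathlib
import Pool.Agent.H.MP_0335f8_al.helper41g.GWord

/-!
# Four identities between root elements, characteristic two
-/

namespace H41G

open H41Chev

variable {K : Type*} [Field K]

theorem I1 (hK : (2 : K) = 0) (val : Fin 6 → K) :
    (XM val [(![1, 0, 0, 0], ![1, 0, 0, 0, 0, 0]), (![0, 1, 0, 0], ![0, 1, 0, 0, 0, 0]), (![0, 0, 1, 0], ![0, 0, 1, 0, 0, 0]), (![0, 1, 1, 1], ![0, 0, 0, 1, 0, 0]), (![1, 0, 1, 1], ![0, 0, 0, 0, 1, 0]), (![1, 1, 0, 1], ![0, 0, 0, 0, 0, 1])] : GLM B4 K) =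
    XM val [(![1, 1, 1, 1], ![1, 0, 0, 1, 0, 0]), (![1, 1, 1, 1], ![0, 1, 0, 0, 1, 0]), (![1, 1, 1, 1], ![0, 0, 1, 0, 0, 1]), (![0, 1, 1, 1], ![0, 0, 0, 1, 0, 0]), (![1, 0, 1, 1], ![0, 0, 0, 0, 1, 0]), (![1, 1, 0, 1], ![0, 0, 0, 0, 0, 1]), (![1, 0, 0, 0], ![1, 0, 0, 0, 0, 0]), (![0, 1, 0, 0], ![0, 1, 0, 0, 0, 0]), (![0, 0, 1, 0], ![0, 0, 1, 0, 0, 0])] :=
  XM_eq hK val [(2, 0), (1, 0), (3, 0), (2, 1), (2, 0), (1, 0), (0, 0), (3, 0), (4, 0), (5, 0), (4, 1), (4, 0), (3, 0), (2, 0), (1, 0), (0, 0), (5, 0)]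
    [(0, 0), (1, 0), (0, 0), (2, 0), (1, 0), (0, 0), (3, 0), (2, 0), (1, 0), (0, 0), (4, 0), (3, 0), (2, 0), (1, 0), (0, 0), (5, 0), (4, 0), (3, 0), (2, 1), (2, 0), (3, 0), (4, 0), (5, 0), (6, 2), (5, 0), (4, 0), (6, 0), (5, 0)] (by decide +kernel)

theorem I1p (hK : (2 : K) = 0) (val : Fin 6 → K) :
    (XM val [(![1, 0, 0, 1], ![1, 0, 0, 0, 0, 0]), (![0, 1, 0, 1], ![0, 1, 0, 0, 0, 0]), (![0, 0, 1, 1], ![0, 0, 1, 0, 0, 0]), (![0, 1, 1, 1], ![0, 0, 0, 1, 0, 0]), (![1, 0, 1, 1], ![0, 0, 0, 0, 1, 0]), (![1, 1, 0, 1], ![0, 0, 0, 0, 0, 1])] : GLM B4 K) =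
    XM val [(![1, 1, 1, 2], ![1, 0, 0, 1, 0, 0]), (![1, 1, 1, 2], ![0, 1, 0, 0, 1, 0]), (![1, 1, 1, 2], ![0, 0, 1, 0, 0, 1]), (![0, 1, 1, 1], ![0, 0, 0, 1, 0, 0]), (![1, 0, 1, 1], ![0, 0, 0, 0, 1, 0]), (![1, 1, 0, 1], ![0, 0, 0, 0, 0, 1]), (![1, 0, 0, 1], ![1, 0, 0, 0, 0, 0]), (![0, 1, 0, 1], ![0, 1, 0, 0, 0, 0]), (![0, 0, 1, 1], ![0, 0, 1, 0, 0, 0])] :=
  XM_eq hK val [(2, 0), (3, 0), (2, 0), (4, 1), (4, 0), (3, 0), (2, 0), (1, 0), (0, 0), (5, 0)]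
    [(0, 0), (1, 0), (0, 0), (2, 0), (1, 0), (0, 0), (3, 0), (2, 0), (1, 0), (0, 0), (4, 0), (3, 0), (2, 0), (1, 0), (0, 0), (5, 0), (4, 0), (3, 0), (2, 1), (2, 0), (1, 0), (3, 0), (4, 0), (5, 0), (6, 2), (5, 0), (4, 0), (3, 0), (2, 1), (2, 0), (3, 0), (4, 0), (5, 0), (6, 2), (5, 0)] (by decide +kernel)

theorem I3 (hK : (2 : K) = 0) (val : Fin 6 → K) :
    (XM val [(![0, 0, 0, 1], ![0, 0, 0, 1, 0, 0]), (![1, 0, 0, 0], ![1, 0, 0, 0, 0, 0]), (![0, 1, 0, 0], ![0, 1, 0, 0, 0, 0]), (![0, 0, 1, 0], ![0, 0, 1, 0, 0, 0])] : GLM B4 K) =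
    XM val [(![1, 0, 0, 1], ![1, 0, 0, 1, 0, 0]), (![0, 1, 0, 1], ![0, 1, 0, 1, 0, 0]), (![0, 0, 1, 1], ![0, 0, 1, 1, 0, 0]), (![0, 1, 1, 1], ![0, 1, 1, 1, 0, 0]), (![1, 0, 1, 1], ![1, 0, 1, 1, 0, 0]), (![1, 1, 0, 1], ![1, 1, 0, 1, 0, 0]), (![1, 1, 1, 1], ![1, 1, 1, 1, 0, 0]), (![1, 1, 1, 2], ![1, 1, 1, 2, 0, 0]), (![1, 0, 0, 0], ![1, 0, 0, 0, 0, 0]), (![0, 1, 0, 0], ![0, 1, 0, 0, 0, 0]), (![0, 0, 1, 0], ![0, 0, 1, 0, 0, 0]), (![0, 0, 0, 1], ![0, 0, 0, 1, 0, 0])] :=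
  XM_eq hK val [(0, 1), (0, 0), (1, 0), (3, 0)]
    [(1, 0), (3, 0), (2, 1), (2, 0), (3, 0), (4, 0), (5, 0), (4, 0), (6, 0), (7, 2), (6, 0), (5, 1), (5, 0), (4, 0), (3, 1), (3, 0), (2, 0), (1, 1), (1, 0), (0, 0), (2, 0), (3, 2), (3, 0), (4, 2), (4, 0), (5, 2), (4, 0), (3, 0), (5, 0), (4, 1), (4, 0), (3, 0), (2, 0), (5, 0), (6, 2), (5, 0), (4, 1), (4, 0), (3, 0), (2, 1), (2, 0), (1, 0), (3, 0), (4, 2), (4, 0), (5, 2)] (by decide +kernel)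

theorem I5 (hK : (2 : K) = 0) (val : Fin 6 → K) :
    (XM val [(![1, 0, 0, 1], ![0, 1, 1, 1, 0, 0]), (![0, 1, 0, 1], ![1, 0, 1, 1, 0, 0]), (![0, 0, 1, 1], ![1, 1, 0, 1, 0, 0]), (![-1, 0, 0, 0], ![1, 0, 0, 1, 0, 0]), (![0, -1, 0, 0], ![0, 1, 0, 1, 0, 0]), (![0, 0, -1, 0], ![0, 0, 1, 1, 0, 0]), (![0, 1, 1, 1], ![1, 0, 0, 0, 0, 0]), (![1, 0, 1, 1], ![0, 1, 0, 0, 0, 0]), (![1, 1, 0, 1], ![0, 0, 1, 0, 0, 0])] : GLM B4 K) =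
    XM val [(![0, 0, 0, 1], ![1, 1, 1, 2, 0, 0]), (![0, 1, 1, 1], ![1, 0, 0, 0, 0, 0]), (![1, 0, 1, 1], ![0, 1, 0, 0, 0, 0]), (![1, 1, 0, 1], ![0, 0, 1, 0, 0, 0]), (![1, 0, 0, 1], ![0, 1, 1, 1, 0, 0]), (![0, 1, 0, 1], ![1, 0, 1, 1, 0, 0]), (![0, 0, 1, 1], ![1, 1, 0, 1, 0, 0]), (![-1, 0, 0, 0], ![1, 0, 0, 1, 0, 0]), (![0, -1, 0, 0], ![0, 1, 0, 1, 0, 0]), (![0, 0, -1, 0], ![0, 0, 1, 1, 0, 0])] :=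
  XM_eq hK val [(0, 0), (1, 0), (0, 0), (2, 1), (2, 0), (1, 0), (0, 0), (3, 0), (4, 0), (3, 0), (2, 1), (2, 0), (1, 0), (3, 0), (4, 0), (5, 2), (4, 0), (3, 0), (5, 1), (5, 0), (4, 0), (3, 1), (3, 0), (2, 0), (1, 1), (1, 0), (0, 0), (2, 0), (3, 2), (3, 0), (4, 2), (4, 0), (5, 0), (4, 0), (3, 1), (3, 0), (2, 0), (4, 0), (5, 2), (5, 0), (4, 0)]
    [(0, 0), (1, 0), (2, 0), (3, 0), (4, 0), (3, 0), (5, 0), (4, 0), (3, 0), (2, 1), (2, 0), (3, 0), (4, 0), (5, 0), (7, 0), (6, 0), (5, 1), (5, 0), (4, 0), (3, 1), (3, 0), (2, 0), (1, 1), (1, 0), (2, 0), (3, 2), (3, 0), (4, 2), (4, 0), (5, 0), (6, 2), (5, 0), (4, 0), (3, 1), (3, 0), (4, 0), (5, 2), (5, 0)] (by decide +kernel)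

end H41G
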