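import Mathlib
import Pool.Agent.H.MP_0335f8_al.helper41g.GIdR

/-!
# The relations between the root elements of the triality group, characteristic two
-/

namespace H41G

open H41Chev

variable {K : Type*} [Field K] {φ : K ≃+* K}

theorem Ya_eq (t : K) : Y φ ![1, 0, 0, 0] t = X good4 ![1, 0, 0, 0] t *
    X good4 ![0, 1, 0, 0] (φ t) * X good4 ![0, 0, 1, 0] (φ (φ t)) := by
  unfold Y
  rw [show tri ![1, 0, 0, 0] = ![0, 1, 0, 0] by decide +kernel,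
    show tri ![0, 1, 0, 0] = ![0, 0, 1, 0] by decide +kernel]

theorem Yab_eq (t : K) : Y φ ![1, 0, 0, 1] t = X good4 ![1, 0, 0, 1] t *
    X good4 ![0, 1, 0, 1] (φ t) * X good4 ![0, 0, 1, 1] (φ (φ t)) := by
  unfold Y
  rw [show tri ![1, 0, 0, 1] = ![0, 1, 0, 1] by decide +kernel,
    show tri ![0, 1, 0, 1] = ![0, 0, 1, 1] by decide +kernel]

theorem Yc_eq (t : K) : Y φ ![0, 1, 1, 1] t = X good4 ![0, 1, 1, 1] t *
    X good4 ![1, 0, 1, 1] (φ t) * X good4 ![1, 1, 0, 1] (φ (φ t)) := by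
  unfold Y
  rw [show tri ![0, 1, 1, 1] = ![1, 0, 1, 1] by decide +kernel,
    show tri ![1, 0, 1, 1] = ![1, 1, 0, 1] by decide +kernel]

theorem Yna_eq (t : K) : Y φ ![-1, 0, 0, 0] t = X good4 ![-1, 0, 0, 0] t *
    X good4 ![0, -1, 0, 0] (φ t) * X good4 ![0, 0, -1, 0] (φ (φ t)) := by
  unfold Y
  rw [show tri ![-1, 0, 0, 0] = ![0, -1, 0, 0] by decide +kernel,
    show tri ![0, -1, 0, 0] = ![0, 0, -1, 0] by decide +kernel]

/-- the trace -/
def Tr (φ : K ≃+* K) (x : K) : K := x + φ x + φ (φ x)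

/-- the adjoint -/
def Ad (φ : K ≃+* K) (x : K) : K := φ x * φ (φ x)

/-- the norm -/
def Nm (φ : K ≃+* K) (x : K) : K := x * (φ x * φ (φ x))

theorem Y1 (hK : (2 : K) = 0) (t u : K) : Y φ ![1, 0, 0, 0] t * Y φ ![0, 1, 1, 1] u =
    X good4 ![1, 1, 1, 1] (Tr φ (t * u)) * (Y φ ![0, 1, 1, 1] u * Y φ ![1, 0, 0, 0] t) := by
  have h := I1 hK ![t, φ t, φ (φ t), u, φ u, φ (φ u)]
  simp only [XM, mon_eq, Matrix.cons_val, pow_zero, pow_one, one_mul, mul_one] at h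
  rw [Ya_eq, Yc_eq]
  unfold Tr
  rw [← X_add, ← X_add, map_mul, map_mul]
  simp only [mul_assoc] at h ⊢
  exact h

theorem Y1p (hK : (2 : K) = 0) (t u : K) : Y φ ![1, 0, 0, 1] t * Y φ ![0, 1, 1, 1] u =
    X good4 ![1, 1, 1, 2] (Tr φ (t * u)) * (Y φ ![0, 1, 1, 1] u * Y φ ![1, 0, 0, 1] t) := by
  have h := I1p hK ![t, φ t, φ (φ t), u, φ u, φ (φ u)]
  simp only [XM, mon_eq, Matrix.cons_val, pow_zero, pow_one, one_mul, mul_one] at h
  rw [Yab_eq, Yc_eq]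
  unfold Tr
  rw [← X_add, ← X_add, map_mul, map_mul]
  simp only [mul_assoc] at h ⊢
  exact h

theorem Y3 (hK : (2 : K) = 0) (hφ : ∀ x, φ (φ (φ x)) = x) {s : K} (hs : φ s = s) (t : K) :
    X good4 ![0, 0, 0, 1] s * Y φ ![1, 0, 0, 0] t =
    Y φ ![1, 0, 0, 1] (s * t) * Y φ ![0, 1, 1, 1] (s * Ad φ t) *
      X good4 ![1, 1, 1, 1] (s * Nm φ t) * X good4 ![1, 1, 1, 2] (s ^ 2 * Nm φ t) *
      (Y φ ![1, 0, 0, 0] t * X good4 ![0, 0, 0, 1] s) := by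
  have h := I3 hK ![t, φ t, φ (φ t), s, 1, 1]
  simp only [XM, mon_eq, Matrix.cons_val, pow_zero, pow_one, one_mul, mul_one] at h
  rw [Ya_eq, Yab_eq, Yc_eq]
  unfold Ad Nm
  simp only [map_mul, hs, hφ]
  rw [show s * (φ t * φ (φ t)) = φ t * φ (φ t) * s by ring,
    show s * (φ (φ t) * t) = t * φ (φ t) * s by ring,
    show s * (t * φ t) = t * φ t * s by ring,
    show s * (t * (φ t * φ (φ t))) = t * φ t * φ (φ t) * s by ring,
    show s ^ 2 * (t * (φ t * φ (φ t))) = t * φ t * φ (φ t) * s ^ 2 by ring,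
    show s * t = t * s by ring, show s * φ t = φ t * s by ring,
    show s * φ (φ t) = φ (φ t) * s by ring]
  simp only [mul_assoc] at h ⊢
  exact h

theorem Y5 (hK : (2 : K) = 0) (hφ : ∀ x, φ (φ (φ x)) = x) {f : K} (hf : φ f = f) (t : K) :
    Y φ ![1, 0, 0, 1] (f * Ad φ t) * Y φ ![-1, 0, 0, 0] (f * t) * Y φ ![0, 1, 1, 1] t =
    X good4 ![0, 0, 0, 1] (f ^ 2 * Nm φ t) * Y φ ![0, 1, 1, 1] t *
      (Y φ ![1, 0, 0, 1] (f * Ad φ t) * Y φ ![-1, 0, 0, 0] (f * t)) := by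
  have h := I5 hK ![t, φ t, φ (φ t), f, 1, 1]
  simp only [XM, mon_eq, Matrix.cons_val, pow_zero, pow_one, one_mul, mul_one] at h
  rw [Yna_eq, Yab_eq, Yc_eq]
  unfold Ad Nm
  simp only [map_mul, hf, hφ]
  rw [show f * (φ t * φ (φ t)) = φ t * φ (φ t) * f by ring,
    show f * (φ (φ t) * t) = t * φ (φ t) * f by ring,
    show f * (t * φ t) = t * φ t * f by ring,
    show f ^ 2 * (t * (φ t * φ (φ t))) = t * φ t * φ (φ t) * f ^ 2 by ring,
    show f * t = t * f by ring, show f * φ t = φ t * f by ring,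
    show f * φ (φ t) = φ (φ t) * f by ring]
  simp only [mul_assoc] at h ⊢
  exact h

end H41G
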