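import Mathlib
import Pool.Agent.H.MP_0335f8_al.helper41g.GId

/-!
# Generation of the triality group, characteristic two
-/

namespace H41G

open H41Chev

variable {K : Type*} [Field K] {φ : K ≃+* K} {L : Subgroup (GLM B4 K)}

/-- the short roots, in the order of the steps -/
def sh : Fin 6 → (Fin 4 → ℤ) :=
  ![![1, 0, 0, 0], ![1, 0, 0, 1], ![0, -1, -1, -1], ![-1, 0, 0, 0], ![-1, 0, 0, -1], ![0, 1, 1, 1]]

/-- the long roots, in the order of the steps -/
def lo : Fin 6 → (Fin 4 → ℤ) :=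
  ![![0, 0, 0, 1], ![0, 0, 0, -1], ![1, 1, 1, 1], ![1, 1, 1, 2], ![-1, -1, -1, -2],
    ![-1, -1, -1, -1]]

/-- the words of the reflections -/
def W1 : Wd 4 := [(true, ![0, 0, 0, 1])]

/-- the words of the reflections -/
def W2 : Wd 4 := [(true, ![1, 1, 1, 2])]

/-- the words of the reflections -/
def W3 : Wd 4 := [(true, ![1, 0, 0, 1]), (true, ![0, 1, 0, 1]), (true, ![0, 0, 1, 1])]

theorem ok1 : wok B4 W1 := by decide +kernel
theorem ok2 : wok B4 W2 := by decide +kernel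
theorem ok3 : wok B4 W3 := by decide +kernel

theorem conjX4 {w : Wd 4} (hw : wok B4 w) (hL : NN good4 w ∈ L) {v v' : Fin 4 → ℤ} {t : K}
    (h : X good4 v t ∈ L) (e : wv B4 w v = v') : X good4 v' t ∈ L :=
  e ▸ conj_X good4 hw hL h

theorem NN_Y (hK : (2 : K) = 0) {w : Wd 4} (hw : wok B4 w) {v v' : Fin 4 → ℤ} (t : K)
    (e : wv B4 w v = v' ∧ wv B4 w (tri v) = tri v' ∧ wv B4 w (tri (tri v)) = tri (tri v')) :
    (NN good4 w * Y φ v t : GLM B4 K) = Y φ v' t * NN good4 w := by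
  unfold Y
  rw [← mul_assoc, ← mul_assoc, NN_X good4 hw, mul_assoc (X good4 _ _) (NN good4 w),
    NN_X good4 hw, ← mul_assoc, mul_assoc (X good4 _ _ * X good4 _ _) (NN good4 w),
    NN_X good4 hw, cast_one (ws_sq w _) hK, cast_one (ws_sq w _) hK, cast_one (ws_sq w _) hK,
    one_mul, one_mul, one_mul, e.1, e.2.1, e.2.2]
  simp only [mul_assoc]

theorem conjY (hK : (2 : K) = 0) {w : Wd 4} (hw : wok B4 w) (hL : NN good4 w ∈ L)
    {v v' : Fin 4 → ℤ} {t : K} (h : Y φ v t ∈ L)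
    (e : wv B4 w v = v' ∧ wv B4 w (tri v) = tri v' ∧ wv B4 w (tri (tri v)) = tri (tri v')) :
    Y φ v' t ∈ L := by
  have := L.mul_mem (L.mul_mem hL h) (L.inv_mem hL)
  rwa [NN_Y hK hw t e, mul_assoc, mul_inv_cancel, mul_one] at this

theorem cyc6 {P : Fin 6 → Prop} (h : ∀ i, P i → P (i + 1)) {i0 : Fin 6} (h0 : P i0) :
    ∀ i, P i := by
  have key : ∀ k : ℕ, P (i0 + (Fin.ofNat 6 k)) := by
    intro k
    induction k with
    | zero => simpa using h0
    | succ k ih =>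
      have := h _ ih
      have e : i0 + Fin.ofNat 6 (k + 1) = i0 + Fin.ofNat 6 k + 1 := by
        apply Fin.ext
        simp only [Fin.val_add, Fin.ofNat]
        show (i0.val + (k + 1) % 6) % 6 = ((i0.val + k % 6) % 6 + 1) % 6
        omega
      rw [e]; exact this
  intro i
  have := key (i - i0).val
  have e : i0 + Fin.ofNat 6 (i - i0).val = i := by
    have : Fin.ofNat 6 (i - i0).val = i - i0 := by
      apply Fin.ext
      show (i - i0).val % 6 = (i - i0).val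
      exact Nat.mod_eq_of_lt (i - i0).isLt
    rw [this, add_sub_cancel]
  rwa [e] at this

/-- the words of the reflections lie in `L` -/
def WL (L : Subgroup (GLM B4 K)) : Prop := NN good4 W1 ∈ L ∧ NN good4 W2 ∈ L ∧ NN good4 W3 ∈ L

/-- all long root elements with parameter `s` lie in `L` -/
def Lg (L : Subgroup (GLM B4 K)) (s : K) : Prop := ∀ i, X good4 (lo i) s ∈ L

/-- all short root elements with parameter `t` lie in `L` -/
def Sm (φ : K ≃+* K) (L : Subgroup (GLM B4 K)) (t : K) : Prop := ∀ i, Y φ (sh i) t ∈ L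

theorem Lg_of (hW : WL L) {s : K} (i0 : Fin 6) (h : X good4 (lo i0) s ∈ L) : Lg L s := by
  obtain ⟨h1, h2, -⟩ := hW
  refine cyc6 (P := fun i => X good4 (lo i) s ∈ L) ?_ h
  intro i hi
  fin_cases i
  · exact conjX4 ok1 h1 hi (by decide +kernel)
  · exact conjX4 ok2 h2 hi (by decide +kernel)
  · exact conjX4 ok1 h1 hi (by decide +kernel)
  · exact conjX4 ok2 h2 hi (by decide +kernel)
  · exact conjX4 ok1 h1 hi (by decide +kernel)
  · exact conjX4 ok2 h2 hi (by decide +kernel)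

theorem Sm_of (hK : (2 : K) = 0) (hW : WL L) {t : K} (i0 : Fin 6) (h : Y φ (sh i0) t ∈ L) :
    Sm φ L t := by
  obtain ⟨h1, h2, h3⟩ := hW
  refine cyc6 (P := fun i => Y φ (sh i) t ∈ L) ?_ h
  intro i hi
  fin_cases i
  · exact conjY hK ok1 h1 hi (by decide +kernel)
  · exact conjY hK ok2 h2 hi (by decide +kernel)
  · exact conjY hK ok3 h3 hi (by decide +kernel)
  · exact conjY hK ok1 h1 hi (by decide +kernel)
  · exact conjY hK ok2 h2 hi (by decide +kernel)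
  · exact conjY hK ok3 h3 hi (by decide +kernel)

/-! ### additivity -/

/-- the three roots of the orbit are pairwise orthogonal -/
def Os (v : Fin 4 → ℤ) : Prop :=
  ip B4 v (tri v) = 0 ∧ ip B4 v (tri (tri v)) = 0 ∧ ip B4 (tri v) (tri (tri v)) = 0

instance (v : Fin 4 → ℤ) : Decidable (Os v) := by unfold Os; infer_instance

theorem Y_add {v : Fin 4 → ℤ} (h : Os v) (s t : K) : Y φ v s * Y φ v t = Y φ v (s + t) := by
  obtain ⟨h1, h2, h3⟩ := h
  have c1 := X_comm (K := K) good4 (u := tri v) (v := v) (by rw [ip_comm good4, h1]) (φ s) t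
  have c2 := X_comm (K := K) good4 (u := tri (tri v)) (v := v) (by rw [ip_comm good4, h2])
    (φ (φ s)) t
  have c3 := X_comm (K := K) good4 (u := tri (tri v)) (v := tri v) (by rw [ip_comm good4, h3])
    (φ (φ s)) (φ t)
  unfold Y
  rw [map_add, map_add, ← X_add good4 v, ← X_add good4 (tri v), ← X_add good4 (tri (tri v))]
  generalize (X good4 v s : GLM B4 K) = x0 at *
  generalize (X good4 (tri v) (φ s) : GLM B4 K) = x1 at *
  generalize (X good4 (tri (tri v)) (φ (φ s)) : GLM B4 K) = x2 at *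
  generalize (X good4 v t : GLM B4 K) = y0 at *
  generalize (X good4 (tri v) (φ t) : GLM B4 K) = y1 at *
  generalize (X good4 (tri (tri v)) (φ (φ t)) : GLM B4 K) = y2 at *
  calc x0 * x1 * x2 * (y0 * y1 * y2) = x0 * x1 * (x2 * y0) * y1 * y2 := by group
    _ = x0 * (x1 * y0) * (x2 * y1) * y2 := by rw [c2]; group
    _ = _ := by rw [c1, c3]; group

theorem Y_zero (v : Fin 4 → ℤ) : (Y φ v 0 : GLM B4 K) = 1 := by
  unfold Y
  rw [map_zero, map_zero, X_zero, X_zero, X_zero, one_mul, one_mul]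

theorem Y_two (hK : (2 : K) = 0) {v : Fin 4 → ℤ} (h : Os v) (t : K) :
    Y φ v t * Y φ v t = 1 := by
  rw [Y_add h, show t + t = 0 by linear_combination t * hK, Y_zero]

theorem os : ∀ i, Os (sh i) := by decide +kernel

theorem Sm_add {s t : K} (h : Sm φ L s) (h' : Sm φ L t) : Sm φ L (s + t) := fun i => by
  rw [← Y_add (os i)]; exact L.mul_mem (h i) (h' i)

theorem Lg_add {s t : K} (h : Lg L s) (h' : Lg L t) : Lg L (s + t) := fun i => by
  rw [← X_add]; exact L.mul_mem (h i) (h' i)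

theorem Lg_zero : Lg L (0 : K) := fun i => by rw [X_zero]; exact L.one_mem

theorem Sm_zero : Sm φ L (0 : K) := fun i => by rw [Y_zero]; exact L.one_mem

theorem Lg_mul (hW : WL L) {s t : K} (h : Lg L s) (h' : Lg L t) : Lg L (s * t) := by
  refine Lg_of hW 3 ?_
  have := com_X good4 (v := lo 0) (w := lo 2) (by decide +kernel) (by decide +kernel)
    (by decide +kernel) (h 0) (h' 2)
  have e : lo 0 + lo 2 = lo 3 := by decide +kernel
  rwa [e] at this

theorem Lg_tr (hK : (2 : K) = 0) (hW : WL L) {t u : K} (h : Sm φ L t) (h' : Sm φ L u) :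
    Lg L (Tr φ (t * u)) := by
  refine Lg_of hW 2 ?_
  have h1 : Y φ ![1, 0, 0, 0] t ∈ L := h 0
  have h2 : Y φ ![0, 1, 1, 1] u ∈ L := h' 5
  have e := Y1 hK (φ := φ) t u
  have h3 := L.mul_mem (L.mul_mem h1 h2) (L.inv_mem (L.mul_mem h2 h1))
  rw [e, mul_assoc, mul_inv_cancel, mul_one] at h3
  exact h3

/-- the element of the commutator of a long and a short root element -/
theorem com_mem (hK : (2 : K) = 0) (hφ : ∀ x, φ (φ (φ x)) = x) {s t : K} (hs : φ s = s)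
    (h : Lg L s) (h' : Sm φ L t) :
    Y φ ![1, 0, 0, 1] (s * t) * Y φ ![0, 1, 1, 1] (s * Ad φ t) *
      X good4 ![1, 1, 1, 1] (s * Nm φ t) * X good4 ![1, 1, 1, 2] (s ^ 2 * Nm φ t) ∈ L := by
  have h1 : X good4 ![0, 0, 0, 1] s ∈ L := h 0
  have h2 : Y φ ![1, 0, 0, 0] t ∈ L := h' 0
  have e := Y3 hK hφ hs t
  have h3 := L.mul_mem (L.mul_mem h1 h2) (L.inv_mem (L.mul_mem h2 h1))
  rw [e, mul_assoc, mul_inv_cancel, mul_one] at h3
  exact h3

theorem XY_comm {z v : Fin 4 → ℤ} (h : 0 ≤ ip B4 z v ∧ 0 ≤ ip B4 z (tri v) ∧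
    0 ≤ ip B4 z (tri (tri v))) (s t : K) :
    X good4 z s * Y φ v t = Y φ v t * X good4 z s := by
  have c0 := X_comm (K := K) good4 h.1 s t
  have c1 := X_comm (K := K) good4 h.2.1 s (φ t)
  have c2 := X_comm (K := K) good4 h.2.2 s (φ (φ t))
  unfold Y
  rw [← mul_assoc, ← mul_assoc, c0, mul_assoc (X good4 v t), c1, mul_assoc, mul_assoc, c2]
  simp only [mul_assoc]

theorem nm_mem (hK : (2 : K) = 0) (hφ : ∀ x, φ (φ (φ x)) = x) (hW : WL L) (h1 : Lg L (1 : K))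
    {t : K} (h : Sm φ L t) : Lg L (Nm φ t) ∧ Sm φ L (Ad φ t) := by
  have e := com_mem hK hφ (map_one φ) h1 h
  rw [one_mul, one_mul, one_mul, one_pow, one_mul] at e
  have e1 : Y φ ![1, 0, 0, 1] t ∈ L := h 1
  have e2 := L.mul_mem (L.inv_mem e1) e
  have e3 : Y φ ![0, 1, 1, 1] (Ad φ t) * X good4 ![1, 1, 1, 1] (Nm φ t) *
      X good4 ![1, 1, 1, 2] (Nm φ t) ∈ L := by
    convert e2 using 1
    group
  have b1 : X good4 ![0, 0, 0, 1] (1 : K) ∈ L := h1 0
  have c1 := XY_comm (φ := φ) (z := ![0, 0, 0, 1]) (v := ![0, 1, 1, 1]) (by decide +kernel)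
    (1 : K) (Ad φ t)
  have c2 := XY_comm (φ := φ) (z := ![1, 1, 1, 2]) (v := ![0, 1, 1, 1]) (by decide +kernel)
    (Nm φ t) (Ad φ t)
  have c3 := X_comm (K := K) good4 (u := ![1, 1, 1, 2]) (v := ![1, 1, 1, 1]) (by decide +kernel)
    (Nm φ t) (Nm φ t)
  have c4 := X_comm (K := K) good4 (u := ![0, 0, 0, 1]) (v := ![1, 1, 1, 2]) (by decide +kernel)
    1 (Nm φ t)
  have c5 := X_com (K := K) good4 (u := ![0, 0, 0, 1]) (v := ![1, 1, 1, 1]) (by decide +kernel)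
    (by decide +kernel) (by decide +kernel) 1 (Nm φ t)
  rw [cast_one (eps_sq _ _) hK, one_mul, one_mul,
    show (![0, 0, 0, 1] : Fin 4 → ℤ) + ![1, 1, 1, 1] = ![1, 1, 1, 2] by decide +kernel] at c5
  have h5 := L.mul_mem (L.mul_mem b1 e3) (L.inv_mem (L.mul_mem e3 b1))
  have key : X good4 ![0, 0, 0, 1] (1 : K) * (Y φ ![0, 1, 1, 1] (Ad φ t) *
      X good4 ![1, 1, 1, 1] (Nm φ t) * X good4 ![1, 1, 1, 2] (Nm φ t)) =
      X good4 ![1, 1, 1, 2] (Nm φ t) * (Y φ ![0, 1, 1, 1] (Ad φ t) *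
      X good4 ![1, 1, 1, 1] (Nm φ t) * X good4 ![1, 1, 1, 2] (Nm φ t) *
      X good4 ![0, 0, 0, 1] (1 : K)) := by
    generalize (X good4 ![0, 0, 0, 1] (1 : K) : GLM B4 K) = b at *
    generalize (Y φ ![0, 1, 1, 1] (Ad φ t) : GLM B4 K) = y at *
    generalize (X good4 ![1, 1, 1, 1] (Nm φ t) : GLM B4 K) = l at *
    generalize (X good4 ![1, 1, 1, 2] (Nm φ t) : GLM B4 K) = m at *
    calc b * (y * l * m) = (b * y) * l * m := by group
      _ = y * (b * l) * m := by rw [c1]; group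
      _ = (y * m) * l * (b * m) := by rw [c5]; group
      _ = m * (y * l * m * b) := by rw [← c2, c4]; group
  have n1 : X good4 ![1, 1, 1, 2] (Nm φ t) ∈ L := by
    have : X good4 ![1, 1, 1, 2] (Nm φ t) = X good4 ![0, 0, 0, 1] (1 : K) *
      (Y φ ![0, 1, 1, 1] (Ad φ t) * X good4 ![1, 1, 1, 1] (Nm φ t) *
        X good4 ![1, 1, 1, 2] (Nm φ t)) * (Y φ ![0, 1, 1, 1] (Ad φ t) *
      X good4 ![1, 1, 1, 1] (Nm φ t) * X good4 ![1, 1, 1, 2] (Nm φ t) *
      X good4 ![0, 0, 0, 1] (1 : K))⁻¹ := by rw [key]; group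
    rw [this]; exact h5
  have n2 := Lg_of hW 3 n1
  refine ⟨n2, Sm_of hK hW 5 ?_⟩
  have n3 : X good4 ![1, 1, 1, 1] (Nm φ t) ∈ L := n2 2
  have n4 := L.mul_mem (L.mul_mem e3 (L.inv_mem n1)) (L.inv_mem n3)
  have : Y φ ![0, 1, 1, 1] (Ad φ t) = Y φ ![0, 1, 1, 1] (Ad φ t) *
      X good4 ![1, 1, 1, 1] (Nm φ t) * X good4 ![1, 1, 1, 2] (Nm φ t) *
      (X good4 ![1, 1, 1, 2] (Nm φ t))⁻¹ * (X good4 ![1, 1, 1, 1] (Nm φ t))⁻¹ := by group
  show Y φ ![0, 1, 1, 1] (Ad φ t) ∈ L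
  rw [this]; exact n4

/-! ### pairs -/

/-- the product of two adjacent short root elements lies in `L` -/
def Pp (φ : K ≃+* K) (L : Subgroup (GLM B4 K)) (x y : K) : Prop :=
  Y φ ![1, 0, 0, 1] x * Y φ ![0, 1, 1, 1] y ∈ L

theorem Pp_com (hK : (2 : K) = 0) (hφ : ∀ x, φ (φ (φ x)) = x) {s t : K} (hs : φ s = s)
    (h : Lg L s) (h' : Sm φ L t) (n1 : Lg L (s * Nm φ t)) (n2 : Lg L (s ^ 2 * Nm φ t)) :
    Pp φ L (s * t) (s * Ad φ t) := by
  have e := com_mem hK hφ hs h h'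
  have m1 : X good4 ![1, 1, 1, 1] (s * Nm φ t) ∈ L := n1 2
  have m2 : X good4 ![1, 1, 1, 2] (s ^ 2 * Nm φ t) ∈ L := n2 3
  have n4 := L.mul_mem (L.mul_mem e (L.inv_mem m2)) (L.inv_mem m1)
  have e5 : ∀ a b c d : GLM B4 K, a * b * c * d * d⁻¹ * c⁻¹ = a * b := fun a b c d => by group
  rw [e5] at n4
  exact n4

theorem Pp_add (hK : (2 : K) = 0) {x y x' y' : K} (h : Pp φ L x y) (h' : Pp φ L x' y')
    (n : Lg L (Tr φ (x' * y))) : Pp φ L (x + x') (y + y') := by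
  have e := Y1p hK (φ := φ) x' y
  have m1 : X good4 ![1, 1, 1, 2] (Tr φ (x' * y)) ∈ L := n 3
  have c1 := XY_comm (φ := φ) (z := ![1, 1, 1, 2]) (v := ![1, 0, 0, 1]) (by decide +kernel)
    (Tr φ (x' * y)) x
  unfold Pp at h h' ⊢
  have h5 := L.mul_mem m1 (L.mul_mem h h')
  have o1 : Os ![1, 0, 0, 1] := os 1
  have o2 : Os ![0, 1, 1, 1] := os 5
  rw [← Y_add o1, ← Y_add o2]
  convert h5 using 1
  generalize (X good4 ![1, 1, 1, 2] (Tr φ (x' * y)) : GLM B4 K) = m at *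
  generalize (Y φ ![1, 0, 0, 1] x : GLM B4 K) = a at *
  generalize (Y φ ![1, 0, 0, 1] x' : GLM B4 K) = a' at *
  generalize (Y φ ![0, 1, 1, 1] y : GLM B4 K) = b at *
  generalize (Y φ ![0, 1, 1, 1] y' : GLM B4 K) = b' at *
  calc a * a' * (b * b') = a * (a' * b) * b' := by group
    _ = (a * m) * b * a' * b' := by rw [e]; group
    _ = m * (a * b * (a' * b')) := by rw [← c1]; group

theorem Sm_of_Pp (hK : (2 : K) = 0) (hW : WL L) {y : K} (h : Pp φ L 0 y) : Sm φ L y := by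
  refine Sm_of hK hW 5 ?_
  unfold Pp at h
  rwa [Y_zero, one_mul] at h

end H41G
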