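import Mathlib
import Pool.Agent.H.MP_0335f8_al.helper41g.GGen

/-!
# The parameters of the root elements in the subgroup, characteristic two
-/

namespace H41G

open H41Chev

variable {K : Type*} [Field K] {φ : K ≃+* K} {L : Subgroup (GLM B4 K)}

theorem fix_Tr (hφ : ∀ x, φ (φ (φ x)) = x) (x : K) : φ (Tr φ x) = Tr φ x := by
  unfold Tr; rw [map_add, map_add, hφ]; ring

theorem fix_Nm (hφ : ∀ x, φ (φ (φ x)) = x) (x : K) : φ (Nm φ x) = Nm φ x := by
  unfold Nm; rw [map_mul, map_mul, hφ]; ring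

/-- if all long root elements lie in `L`, the pairs -/
theorem Pp_all (hK : (2 : K) = 0) (hφ : ∀ x, φ (φ (φ x)) = x)
    (hR : ∀ s, φ s = s → Lg L s) {s t : K} (hs : φ s = s) (h : Sm φ L t) :
    Pp φ L (s * t) (s * Ad φ t) :=
  Pp_com hK hφ hs (hR s hs) h
    (hR _ (by rw [map_mul, hs, fix_Nm hφ])) (hR _ (by rw [map_mul, map_pow, hs, fix_Nm hφ]))

theorem Pp_add' (hK : (2 : K) = 0) (hφ : ∀ x, φ (φ (φ x)) = x)
    (hR : ∀ s, φ s = s → Lg L s) {x y x' y' : K} (h : Pp φ L x y)
    (h' : Pp φ L x' y') : Pp φ L (x + x') (y + y') :=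
  Pp_add hK h h' (hR _ (fix_Tr hφ _))

/-- rule one -/
theorem rule1 (hK : (2 : K) = 0) (hφ : ∀ x, φ (φ (φ x)) = x) (hW : WL L)
    (hR : ∀ s, φ s = s → Lg L s) (h1 : Sm φ L 1) {s t : K} (hs : φ s = s)
    (h : Sm φ L t) : Sm φ L (s * (Tr φ t + t)) := by
  have a := Pp_all hK hφ hR hs h
  have b := Pp_all hK hφ hR hs (Sm_add h h1)
  have c := Pp_all hK hφ hR hs h1
  have d := Pp_add' hK hφ hR (Pp_add' hK hφ hR a b) c
  refine Sm_of_Pp hK hW ?_
  convert d using 1
  · linear_combination (-(s * t) - s) * hK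
  · unfold Ad Tr
    rw [map_add, map_add, map_one, map_one]
    linear_combination (s * t - s * φ t * φ (φ t) - s) * hK

/-- rule two -/
theorem rule2 (hK : (2 : K) = 0) (hφ : ∀ x, φ (φ (φ x)) = x) (hW : WL L)
    (hR : ∀ s, φ s = s → Lg L s) (h1 : Sm φ L 1) {s x : K} (hs : φ s = s) (hx : φ x = x)
    (h : Sm φ L x) : Sm φ L (s * (x ^ 2 + x)) := by
  have a := Pp_all hK hφ hR hs h
  have b := Pp_all hK hφ hR (s := s * x) (by rw [map_mul, hs, hx]) h1
  have d := Pp_add' hK hφ hR a b
  refine Sm_of_Pp hK hW ?_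
  convert d using 1
  · linear_combination (-(s * x)) * hK
  · unfold Ad
    rw [map_one, map_one, hx, hx]
    ring

/-- the trace of a parameter is a parameter -/
theorem Tr_mem (hK : (2 : K) = 0) (hφ : ∀ x, φ (φ (φ x)) = x) (hW : WL L) (g1 : Lg L (1 : K))
    (h1 : Sm φ L 1) {t : K} (h : Sm φ L t) : Sm φ L (Tr φ t) := by
  have a := (nm_mem hK hφ hW g1 h).2
  have b := (nm_mem hK hφ hW g1 (Sm_add h h1)).2
  have c := Sm_add (Sm_add (Sm_add a b) h) h1
  convert c using 1
  unfold Ad Tr
  rw [map_add, map_add, map_one, map_one]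
  linear_combination (- φ t * φ (φ t) - 1) * hK

/-- all root elements lie in `L` -/
theorem all_mem (hK : (2 : K) = 0) (hφ : ∀ x, φ (φ (φ x)) = x) (hW : WL L) (g1 : Lg L (1 : K))
    (h1 : Sm φ L 1) {u : K} (hu : Sm φ L u)
    (hgen : ∀ x : K, φ x = x → x ≠ 0 → ∃ k : ℕ, x = Tr φ u ^ k)
    (hdeg : (∀ x, φ x = x) ∨ φ u ≠ u) :
    (∀ s, φ s = s → Lg L s) ∧ ∀ t, Sm φ L t := by
  have hT := Tr_mem hK hφ hW g1 h1 hu
  have hTR : Lg L (Tr φ u) := by
    have := Lg_tr hK hW hu h1
    rwa [mul_one] at this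
  have hR : ∀ s, φ s = s → Lg L s := by
    intro s hs
    by_cases h0 : s = 0
    · rw [h0]; exact Lg_zero
    · obtain ⟨k, rfl⟩ := hgen s hs h0
      clear hs h0
      induction k with
      | zero => rw [pow_zero]; exact g1
      | succ k ih => rw [pow_succ]; exact Lg_mul hW ih hTR
  refine ⟨hR, ?_⟩
  -- the fixed elements are parameters
  have hF : ∀ x, φ x = x → Sm φ L x := by
    intro x hx
    have fT := fix_Tr hφ u
    by_cases hq : (Tr φ u) ^ 2 + Tr φ u = 0
    · by_cases h0 : x = 0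
      · rw [h0]; exact Sm_zero
      · obtain ⟨k, rfl⟩ := hgen x hx h0
        have h2 : Tr φ u = 0 ∨ Tr φ u = 1 := by
          have : Tr φ u * (Tr φ u + 1) = 0 := by linear_combination hq
          rcases mul_eq_zero.1 this with h | h
          · exact Or.inl h
          · exact Or.inr (by linear_combination h - hK)
        rcases h2 with h2 | h2
        · rw [h2] at h0 ⊢
          rcases Nat.eq_zero_or_pos k with rfl | hk
          · rw [pow_zero]; exact h1
          · exact absurd (zero_pow hk.ne') h0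
        · rw [h2, one_pow]; exact h1
    · have := rule2 hK hφ hW hR h1 (s := x / ((Tr φ u) ^ 2 + Tr φ u))
        (by rw [map_div₀, map_add, map_pow, fT, hx]) fT hT
      rwa [div_mul_cancel₀ _ hq] at this
  rcases hdeg with hid | hne
  · exact fun t => hF t (hid t)
  · -- multiples of parameters by fixed elements
    have hFM : ∀ s t, φ s = s → Sm φ L t → Sm φ L (s * t) := by
      intro s t hs ht
      have a := rule1 hK hφ hW hR h1 hs ht
      have b := hF (s * Tr φ t) (by rw [map_mul, hs, fix_Tr hφ])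
      have c := Sm_add a b
      convert c using 1
      linear_combination (- s * Tr φ t) * hK
    have hsq : Sm φ L (u ^ 2) := by
      have a := (nm_mem hK hφ hW g1 hu).2
      have b := hFM (Tr φ u) u (fix_Tr hφ u) hu
      have c := hF (u * φ u + u * φ (φ u) + φ u * φ (φ u)) (by
        rw [map_add, map_add, map_mul, map_mul, map_mul, hφ]; ring)
      have d := Sm_add (Sm_add a b) c
      convert d using 1
      unfold Ad Tr
      linear_combination (- φ u * φ (φ u) - u * φ u - u * φ (φ u)) * hK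
    intro x
    set u1 := φ u with hu1
    set u2 := φ u1 with hu2
    have f3 : φ u2 = u := hφ u
    have d01 : u - u1 ≠ 0 := sub_ne_zero.2 (Ne.symm hne)
    have d12 : u1 - u2 ≠ 0 := by
      intro h
      apply d01
      have h2 : φ (u - u1) = φ 0 := by rw [map_sub, map_zero]; exact h
      exact φ.injective h2
    have d20 : u2 - u ≠ 0 := by
      intro h
      apply d12
      have h2 : φ (u1 - u2) = φ 0 := by rw [map_sub, map_zero, f3]; exact h
      exact φ.injective h2
    have d02 : u - u2 ≠ 0 := fun h => d20 (by linear_combination -h)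
    have d10 : u1 - u ≠ 0 := fun h => d01 (by linear_combination -h)
    have d21 : u2 - u1 ≠ 0 := fun h => d12 (by linear_combination -h)
    set D := (u - u1) * (u - u2) with hD
    have hx : x = Tr φ (x * (u1 * u2) / D) * 1 + (-Tr φ (x * (u1 + u2) / D)) * u +
        Tr φ (x / D) * u ^ 2 := by
      unfold Tr
      rw [hD]
      simp only [map_div₀, map_mul, map_sub, map_add, ← hu1, ← hu2, f3]
      field_simp
      ring
    rw [hx]
    exact Sm_add (Sm_add (hFM _ _ (fix_Tr hφ _) h1)
      (hFM _ _ (by rw [map_neg, fix_Tr hφ]) hu)) (hFM _ _ (fix_Tr hφ _) hsq)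

end H41G
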