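import Mathlib
import Pool.Agent.H.MP_0335f8_al.helper41g.GField

/-!
# The three elements generate the group, characteristic two
-/

namespace H41G

open H41Chev

variable {K : Type*} [Field K] {φ : K ≃+* K} {L : Subgroup (GLM B4 K)}

/-- the third power of the product of two opposite root elements -/
theorem cube_one (hK : (2 : K) = 0) {m : Fin 4 → ℤ} (hm : ip B4 m m = 2) :
    (X good4 m 1 * X good4 (-m) 1 * (X good4 m 1 * X good4 (-m) 1) *
      (X good4 m 1 * X good4 (-m) 1) : GLM B4 K) = 1 := by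
  have e := nn_X (K := K) good4 hm m 1
  rw [cast_one (eta_sq _ _) hK, one_mul,
    show rf B4 m m = -m by unfold rf; rw [hm, two_smul]; abel] at e
  unfold nn at e
  have p2 := X_two (K := K) good4 hK m 1
  have q2 := X_two (K := K) good4 hK (-m) 1
  generalize (X good4 m 1 : GLM B4 K) = p at *
  generalize (X good4 (-m) 1 : GLM B4 K) = q at *
  have e1 : p * q = q * p * q * p := by
    calc p * q = p * q * (p * p) := by rw [p2, mul_one]
      _ = p * q * p * p := by group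
      _ = _ := by rw [e]; group
  calc p * q * (p * q) * (p * q) = (q * p * q * p) * (p * q) * (p * q) := by rw [← e1]
    _ = q * p * q * (p * p) * q * p * q := by group
    _ = q * p * (q * q) * p * q := by rw [p2]; group
    _ = q * (p * p) * q := by rw [q2]; group
    _ = 1 := by rw [p2, mul_one, q2]

theorem start (hK : (2 : K) = 0) {u : K}
    (hA : Y φ ![0, 1, 1, 1] 1 ∈ L) (hB : X good4 ![0, 0, 0, 1] 1 * Y φ ![0, 1, 1, 1] u ∈ L)
    (hC : NN good4 W3 ∈ L) : WL L ∧ Lg L (1 : K) ∧ Sm φ L 1 ∧ Sm φ L u := by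
  have a1 : Y φ ![1, 0, 0, 0] 1 ∈ L := conjY hK ok3 hC hA (by decide +kernel)
  have b1 : X good4 ![-1, -1, -1, -2] (1 : K) * Y φ ![1, 0, 0, 0] u ∈ L := by
    have h := L.mul_mem (L.mul_mem hC hB) (L.inv_mem hC)
    rw [← mul_assoc, NN_X good4 ok3, cast_one (ws_sq _ _) hK, one_mul, mul_assoc (X good4 _ _),
      NN_Y hK ok3 u (v' := ![1, 0, 0, 0]) (by decide +kernel),
      show wv B4 W3 ![0, 0, 0, 1] = ![-1, -1, -1, -2] by decide +kernel] at h
    convert h using 1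
    group
  have l1 : X good4 ![1, 1, 1, 1] (1 : K) ∈ L := by
    have e := Y1 hK (φ := φ) 1 1
    have h3 := L.mul_mem (L.mul_mem a1 hA) (L.inv_mem (L.mul_mem hA a1))
    rw [e, mul_assoc, mul_inv_cancel, mul_one, mul_one] at h3
    have : Tr φ (1 : K) = 1 := by
      unfold Tr; rw [map_one, map_one]; linear_combination hK
    rwa [this] at h3
  have m1 : X good4 ![1, 1, 1, 2] (1 : K) ∈ L := by
    have c5 := X_com (K := K) good4 (u := ![1, 1, 1, 1]) (v := ![0, 0, 0, 1]) (by decide +kernel)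
      (by decide +kernel) (by decide +kernel) 1 1
    rw [cast_one (eps_sq _ _) hK, one_mul, one_mul,
      show (![1, 1, 1, 1] : Fin 4 → ℤ) + ![0, 0, 0, 1] = ![1, 1, 1, 2] by decide +kernel] at c5
    have c1 := XY_comm (φ := φ) (z := ![1, 1, 1, 1]) (v := ![0, 1, 1, 1]) (by decide +kernel)
      (1 : K) u
    have h5 := L.mul_mem (L.mul_mem l1 hB) (L.inv_mem (L.mul_mem hB l1))
    have key : X good4 ![1, 1, 1, 1] (1 : K) * (X good4 ![0, 0, 0, 1] 1 * Y φ ![0, 1, 1, 1] u) =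
        X good4 ![1, 1, 1, 2] (1 : K) * (X good4 ![0, 0, 0, 1] 1 * Y φ ![0, 1, 1, 1] u *
          X good4 ![1, 1, 1, 1] (1 : K)) := by
      rw [← mul_assoc, c5, mul_assoc _ (X good4 ![1, 1, 1, 1] (1 : K)), c1]
      simp only [mul_assoc]
    rw [key, mul_assoc, mul_inv_cancel, mul_one] at h5
    exact h5
  -- the third power
  have p2 := X_two (K := K) good4 hK ![1, 1, 1, 2] 1
  have y2 := Y_two (φ := φ) hK (os 0) u
  have cy1 := XY_comm (φ := φ) (z := ![1, 1, 1, 2]) (v := ![1, 0, 0, 0]) (by decide +kernel)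
      (1 : K) u
  have cy2 := XY_comm (φ := φ) (z := ![-1, -1, -1, -2]) (v := ![1, 0, 0, 0]) (by decide +kernel)
      (1 : K) u
  have cu := cube_one (K := K) hK (m := ![1, 1, 1, 2]) (by decide +kernel)
  rw [show -(![1, 1, 1, 2] : Fin 4 → ℤ) = ![-1, -1, -1, -2] by decide +kernel] at cu
  have y1 : Y φ ![1, 0, 0, 0] u ∈ L := by
    have h := L.mul_mem (L.mul_mem (L.mul_mem m1 b1) (L.mul_mem m1 b1)) (L.mul_mem m1 b1)
    convert h using 1
    change Y φ ![1, 0, 0, 0] u * Y φ ![1, 0, 0, 0] u = 1 at y2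
    generalize (X good4 ![1, 1, 1, 2] 1 : GLM B4 K) = p at *
    generalize (X good4 ![-1, -1, -1, -2] 1 : GLM B4 K) = q at *
    generalize (Y φ ![1, 0, 0, 0] u : GLM B4 K) = y at *
    symm
    calc p * (q * y) * (p * (q * y)) * (p * (q * y))
        = p * q * (y * p) * q * (y * p) * q * y := by group
      _ = p * q * p * (y * q) * p * (y * q) * y := by rw [← cy1]; group
      _ = p * q * p * q * (y * p) * q * (y * y) := by rw [← cy2]; group
      _ = p * q * (p * q) * (p * (y * q)) := by rw [← cy1, y2]; group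
      _ = (p * q * (p * q) * (p * q)) * y := by rw [← cy2]; group
      _ = y := by rw [cu, one_mul]
  have q1 : X good4 ![-1, -1, -1, -2] (1 : K) ∈ L := by
    have h := L.mul_mem b1 (L.inv_mem y1)
    rwa [mul_assoc, mul_inv_cancel, mul_one] at h
  have y3 : Y φ ![0, 1, 1, 1] u ∈ L := conjY hK ok3 hC y1 (by decide +kernel)
  have b2 : X good4 ![0, 0, 0, 1] (1 : K) ∈ L := by
    have h := L.mul_mem hB (L.inv_mem y3)
    rwa [mul_assoc, mul_inv_cancel, mul_one] at h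
  have b3 : X good4 ![0, 0, 0, -1] (1 : K) ∈ L := conjX4 ok3 hC m1 (by decide +kernel)
  have w1 : NN good4 W1 ∈ L := by
    show nn good4 ![0, 0, 0, 1] * 1 ∈ L
    rw [mul_one]
    unfold nn
    rw [show -(![0, 0, 0, 1] : Fin 4 → ℤ) = ![0, 0, 0, -1] by decide +kernel]
    exact L.mul_mem (L.mul_mem b2 b3) b2
  have w2 : NN good4 W2 ∈ L := by
    show nn good4 ![1, 1, 1, 2] * 1 ∈ L
    rw [mul_one]
    unfold nn
    rw [show -(![1, 1, 1, 2] : Fin 4 → ℤ) = ![-1, -1, -1, -2] by decide +kernel]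
    exact L.mul_mem (L.mul_mem m1 q1) m1
  have hW : WL L := ⟨w1, w2, hC⟩
  exact ⟨hW, Lg_of hW 0 b2, Sm_of hK hW 5 hA, Sm_of hK hW 5 y3⟩

theorem lo_mem {v : Fin 4 → ℤ} (hv : ip B4 v v = 2) (h : tri v = v) : ∃ i, lo i = v := by
  have h1 := roots4 hv
  have key : ∀ v ∈ ([![0, 0, 0, 1], ![1, 1, 1, 1], ![1, 1, 1, 2], ![0, 0, 0, -1],
        ![-1, -1, -1, -1], ![-1, -1, -1, -2],
        ![1, 0, 0, 0], ![1, 0, 0, 1], ![0, 1, 1, 1],
        ![-1, 0, 0, 0], ![-1, 0, 0, -1], ![0, -1, -1, -1],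
        ![0, 1, 0, 0], ![0, 1, 0, 1], ![1, 0, 1, 1],
        ![0, -1, 0, 0], ![0, -1, 0, -1], ![-1, 0, -1, -1],
        ![0, 0, 1, 0], ![0, 0, 1, 1], ![1, 1, 0, 1],
        ![0, 0, -1, 0], ![0, 0, -1, -1], ![-1, -1, 0, -1]] : List (Fin 4 → ℤ)),
      tri v = v → ∃ i, lo i = v := by decide +kernel
  exact key v h1 h

theorem sh_mem {v : Fin 4 → ℤ} (hv : ip B4 v v = 2) (h : tri v ≠ v) :
    ∃ i, sh i = v ∨ sh i = tri v ∨ sh i = tri (tri v) := by
  have h1 := roots4 hv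
  have key : ∀ v ∈ ([![0, 0, 0, 1], ![1, 1, 1, 1], ![1, 1, 1, 2], ![0, 0, 0, -1],
        ![-1, -1, -1, -1], ![-1, -1, -1, -2],
        ![1, 0, 0, 0], ![1, 0, 0, 1], ![0, 1, 1, 1],
        ![-1, 0, 0, 0], ![-1, 0, 0, -1], ![0, -1, -1, -1],
        ![0, 1, 0, 0], ![0, 1, 0, 1], ![1, 0, 1, 1],
        ![0, -1, 0, 0], ![0, -1, 0, -1], ![-1, 0, -1, -1],
        ![0, 0, 1, 0], ![0, 0, 1, 1], ![1, 1, 0, 1],
        ![0, 0, -1, 0], ![0, 0, -1, -1], ![-1, -1, 0, -1]] : List (Fin 4 → ℤ)),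
      tri v ≠ v → ∃ i, sh i = v ∨ sh i = tri v ∨ sh i = tri (tri v) := by decide +kernel
  exact key v h1 h

theorem Os_tri {v : Fin 4 → ℤ} (h : Os v) : Os (tri v) := by
  obtain ⟨h1, h2, h3⟩ := h
  refine ⟨h3, ?_, ?_⟩
  · rw [tri_tri, ip_comm good4, h1]
  · rw [tri_tri, ip_comm good4, h2]

theorem Y_tri (hφ : ∀ x, φ (φ (φ x)) = x) {v : Fin 4 → ℤ} (h : Os v) (t : K) :
    Y φ v t = Y φ (tri v) (φ t) := by
  obtain ⟨h1, h2, -⟩ := h
  have c1 := X_comm (K := K) good4 (u := v) (v := tri v) (by rw [h1]) t (φ t)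
  have c2 := X_comm (K := K) good4 (u := v) (v := tri (tri v)) (by rw [h2]) t (φ (φ t))
  unfold Y
  rw [tri_tri, hφ, c1, mul_assoc, c2, ← mul_assoc]

/-- the group is contained in `L` -/
theorem TG_le_of (hφ : ∀ x, φ (φ (φ x)) = x) (h1 : ∀ s, φ s = s → Lg L s)
    (h2 : ∀ t, Sm φ L t) : TG φ ≤ L := by
  refine TG_le ?_ ?_
  · intro v t hv hf ht
    obtain ⟨i, rfl⟩ := lo_mem hv hf
    exact h1 t ht i
  · intro v t hv hf
    obtain ⟨i, h | h | h⟩ := sh_mem hv hf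
    · rw [← h]; exact h2 t i
    · have o : Os v := by
        have := Os_tri (Os_tri (h ▸ os i : Os (tri v)))
        rwa [tri_tri] at this
      rw [Y_tri hφ o, ← h]; exact h2 _ i
    · have o : Os v := by
        have := Os_tri (h ▸ os i : Os (tri (tri v)))
        rwa [tri_tri] at this
      rw [Y_tri hφ o, Y_tri hφ (Os_tri o), ← h]; exact h2 _ i

/-- the three elements generate -/
theorem gen3 (hK : (2 : K) = 0) (hφ : ∀ x, φ (φ (φ x)) = x) {u : K}
    (hgen : ∀ x : K, φ x = x → x ≠ 0 → ∃ k : ℕ, x = Tr φ u ^ k)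
    (hdeg : (∀ x, φ x = x) ∨ φ u ≠ u)
    (hA : Y φ ![0, 1, 1, 1] 1 ∈ L) (hB : X good4 ![0, 0, 0, 1] 1 * Y φ ![0, 1, 1, 1] u ∈ L)
    (hC : NN good4 W3 ∈ L) : TG φ ≤ L := by
  obtain ⟨hW, g1, s1, su⟩ := start hK hA hB hC
  obtain ⟨a, b⟩ := all_mem hK hφ hW g1 s1 su hgen hdeg
  exact TG_le_of hφ a b

end H41G
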