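import Mathlib
import Pool.Agent.H.MP_0335f8_al.helper41g.GStart
import Pool.Agent.H.MP_0335f8_al.SLower

/-!
# The triality groups, characteristic two: conjugacy and the two bounds
-/

namespace H41G

open H41Chev

variable {K : Type*} [Field K] {φ : K ≃+* K}

/-- conjugacy under a subgroup -/
def CjH (H : Subgroup (GLM B4 K)) (a b : GLM B4 K) : Prop := ∃ g ∈ H, g * a * g⁻¹ = b

theorem CjH.refl (H : Subgroup (GLM B4 K)) (a : GLM B4 K) : CjH H a a :=
  ⟨1, Subgroup.one_mem _, by group⟩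

theorem CjH.symm {H : Subgroup (GLM B4 K)} {a b : GLM B4 K} (h : CjH H a b) : CjH H b a := by
  obtain ⟨g, hg, rfl⟩ := h
  exact ⟨g⁻¹, Subgroup.inv_mem _ hg, by group⟩

theorem CjH.trans {H : Subgroup (GLM B4 K)} {a b c : GLM B4 K} (h : CjH H a b) (h' : CjH H b c) :
    CjH H a c := by
  obtain ⟨g, hg, rfl⟩ := h
  obtain ⟨k, hk, rfl⟩ := h'
  exact ⟨k * g, Subgroup.mul_mem _ hk hg, by group⟩

/-- the lower bound -/
theorem lowerG {k : ℕ} (h : H47Inv.Admissible ↥(TG φ) k) : 5 ≤ k := by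
  refine H47Cl.lower5_gen ?_ h
  have hA := good4
  have key : ∀ {a b : Fin 4 → ℤ} (la : ip B4 a a = 2 ∧ tri a = a) (lb : ip B4 b b = 2 ∧ tri b = b)
      (hab : ip B4 a b = -1),
      (⟨X hA (a + b) 1, X_tg (by show tri a + tri b = a + b; rw [la.2, lb.2]) (map_one φ)⟩ :
        ↥(TG φ)) ∈ commutator ↥(TG φ) := by
    intro a b la lb hab
    set p : ↥(TG φ) := ⟨X hA a ((eps B4 a b : ℤ) : K), X_tg la.2 (map_intCast φ _)⟩ with hp
    set q : ↥(TG φ) := ⟨X hA b 1, X_tg lb.2 (map_one φ)⟩ with hq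
    have h1 : (⟨X hA (a + b) 1, X_tg (by show tri a + tri b = a + b; rw [la.2, lb.2])
        (map_one φ)⟩ : ↥(TG φ)) = p * q * p⁻¹ * q⁻¹ := by
      apply Subtype.ext
      show X hA (a + b) 1 = X hA a ((eps B4 a b : ℤ) : K) * X hA b 1 *
        (X hA a ((eps B4 a b : ℤ) : K))⁻¹ * (X hA b 1)⁻¹
      rw [X_com hA la.1 lb.1 hab, sq_cast (eps_sq _ _), mul_one]
      group
    have h2 := Subgroup.commutator_mem_commutator
      (H₁ := (⊤ : Subgroup ↥(TG φ))) (H₂ := ⊤) (Subgroup.mem_top p) (Subgroup.mem_top q)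
    rw [commutatorElement_def] at h2
    rw [h1]
    exact h2
  have la : ip B4 ![0, 0, 0, 1] ![0, 0, 0, 1] = 2 ∧ tri ![0, 0, 0, 1] = ![0, 0, 0, 1] := by
    decide +kernel
  have lb : ip B4 ![1, 1, 1, 1] ![1, 1, 1, 1] = 2 ∧ tri ![1, 1, 1, 1] = ![1, 1, 1, 1] := by
    decide +kernel
  have hab : ip B4 ![0, 0, 0, 1] ![1, 1, 1, 1] = -1 := by decide +kernel
  have ln : ∀ {a : Fin 4 → ℤ}, ip B4 a a = 2 ∧ tri a = a → ip B4 (-a) (-a) = 2 ∧ tri (-a) = -a :=
    fun h => ⟨root_neg h.1, by rw [tri_neg, h.2]⟩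
  refine ⟨_, key la lb hab, _, key (ln la) (ln lb)
      (by rw [ip_neg_left, ip_neg_right, neg_neg, hab]), ?_⟩
  intro h
  have h2 := congrArg Subtype.val h
  refine X_not_comm (K := K) hA (root_add hA la.1 lb.1 hab) ?_
  rw [neg_add]
  exact h2

/-- the upper bound from three elements -/
theorem asmG {a b c : GLM B4 K}
    (ha : a ∈ TG φ) (a2 : a * a = 1) (ab : a * b = b * a)
    (cb : CjH (TG φ) a b) (cab : CjH (TG φ) a (a * b))
    (cc : CjH (TG φ) a c)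
    (gen : ∀ L : Subgroup (GLM B4 K), a ∈ L → b ∈ L → c ∈ L → TG φ ≤ L) :
    H47Inv.Admissible ↥(TG φ) 5 := by
  have h1 : a ≠ 1 := by
    intro h
    have hb : b = 1 := by obtain ⟨g, -, hg⟩ := cb; rw [← hg, h]; group
    have hc : c = 1 := by obtain ⟨g, -, hg⟩ := cc; rw [← hg, h]; group
    have h3 : (X good4 ![0, 0, 0, 1] 1 : GLM B4 K) ∈ TG φ := X_tg (by decide +kernel) (map_one φ)
    have := gen ⊥ (by rw [h]; exact Subgroup.one_mem _) (by rw [hb]; exact Subgroup.one_mem _)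
      (by rw [hc]; exact Subgroup.one_mem _) h3
    exact X_ne_one good4 (by decide +kernel) (Subgroup.mem_bot.1 this)
  have cm : ∀ {x : GLM B4 K}, CjH (TG φ) a x → x ∈ TG φ := by
    rintro x ⟨g, hg, rfl⟩
    exact Subgroup.mul_mem _ (Subgroup.mul_mem _ hg ha) (Subgroup.inv_mem _ hg)
  have co : ∀ {x : GLM B4 K}, CjH (TG φ) a x → x * x = 1 ∧ x ≠ 1 := by
    rintro x ⟨g, hg, rfl⟩
    constructor
    · calc g * a * g⁻¹ * (g * a * g⁻¹) = g * (a * a) * g⁻¹ := by group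
        _ = 1 := by rw [a2]; group
    · intro h
      apply h1
      calc a = g⁻¹ * (g * a * g⁻¹) * g := by group
        _ = 1 := by rw [h]; group
  set G := TG φ with hG
  set ta : ↥G := ⟨a, ha⟩ with hta
  set tb : ↥G := ⟨b, cm cb⟩ with htb
  set tc : ↥G := ⟨c, cm cc⟩ with htc
  have cj : ∀ x : ↥G, CjH G a x.1 → IsConj ta x := by
    rintro ⟨x, hx⟩ ⟨g, hg, h⟩
    rw [isConj_iff]
    exact ⟨⟨g, hg⟩, Subtype.ext h⟩
  have ord : ∀ x : ↥G, CjH G a x.1 → orderOf x = 2 := by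
    intro x hx
    obtain ⟨h2, h3⟩ := co hx
    refine orderOf_eq_prime ?_ ?_
    · rw [pow_two]; exact Subtype.ext h2
    · intro h; exact h3 (congrArg Subtype.val h)
  have all : ∀ i : Fin 5, CjH G a ((![ta, tb, ta * tb, tc, tc] : Fin 5 → ↥G) i).1 := by
    intro i
    fin_cases i
    · exact CjH.refl G a
    · exact cb
    · exact cab
    · exact cc
    · exact cc
  refine ⟨![ta, tb, ta * tb, tc, tc], fun i => ord _ (all i), fun i j =>
    (cj _ (all i)).symm.trans (cj _ (all j)), ?_, ?_⟩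
  · rw [eq_top_iff]
    intro g _
    set H := Subgroup.closure (Set.range (![ta, tb, ta * tb, tc, tc] : Fin 5 → ↥G)) with hH
    have m : ∀ i : Fin 5, ((![ta, tb, ta * tb, tc, tc] : Fin 5 → ↥G) i).1 ∈ H.map G.subtype :=
      fun i => ⟨_, Subgroup.subset_closure ⟨i, rfl⟩, rfl⟩
    have := gen (H.map G.subtype) (m 0) (m 1) (m 3) g.2
    obtain ⟨g', hg', e⟩ := this
    have : g' = g := Subtype.ext e
    rw [← this]; exact hg'
  · have e : (List.ofFn (![ta, tb, ta * tb, tc, tc] : Fin 5 → ↥G)).prod =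
        ta * (tb * (ta * tb * (tc * (tc * 1)))) := by
      simp [List.ofFn_succ]
    rw [e]
    apply Subtype.ext
    show a * (b * (a * b * (c * (c * 1)))) = 1
    have c2 := (co cc).1
    have b2 := (co cb).1
    calc a * (b * (a * b * (c * (c * 1)))) = a * b * (a * b) * (c * c) := by group
      _ = a * b * (b * a) := by rw [c2, ← ab, mul_one]
      _ = a * (b * b) * a := by group
      _ = 1 := by rw [b2, mul_one, a2]

/-! ### conjugacy -/

theorem sq_inj (hK : (2 : K) = 0) {a b : K} (h : a ^ 2 = b ^ 2) : a = b := by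
  have : (a - b) ^ 2 = 0 := by linear_combination h + (b ^ 2 - a * b) * hK
  exact sub_eq_zero.1 (pow_eq_zero_iff (two_ne_zero) |>.1 this)

theorem Nm_ne {t : K} (ht : t ≠ 0) : Nm φ t ≠ 0 := by
  have h1 : φ t ≠ 0 := fun h => ht (φ.injective (by rw [h, map_zero]))
  have h2 : φ (φ t) ≠ 0 := fun h => h1 (φ.injective (by rw [h, map_zero]))
  unfold Nm
  exact mul_ne_zero ht (mul_ne_zero h1 h2)

/-- the product of a long and an orthogonal short root element is conjugate to the short one -/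
theorem cj_long [Finite K] (hK : (2 : K) = 0) (hφ : ∀ x, φ (φ (φ x)) = x) {t : K} (ht : t ≠ 0) :
    CjH (TG φ) (Y φ ![0, 1, 1, 1] t) (X good4 ![0, 0, 0, 1] 1 * Y φ ![0, 1, 1, 1] t) := by
  obtain ⟨f, hf⟩ := sq_two hK (Nm φ t)⁻¹
  have ff : φ f = f := by
    apply sq_inj hK
    rw [← map_pow, hf, map_inv₀, fix_Nm hφ]
  have e := Y5 hK hφ ff t
  rw [hf, inv_mul_cancel₀ (Nm_ne ht)] at e
  refine ⟨Y φ ![1, 0, 0, 1] (f * Ad φ t) * Y φ ![-1, 0, 0, 0] (f * t),
    Subgroup.mul_mem _ (Y_tg hφ (by decide +kernel) _) (Y_tg hφ (by decide +kernel) _), ?_⟩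
  rw [e]; group

theorem tri_group {G : Type*} [Group G] {x0 x1 x2 y0 y1 y2 : G}
    (a : x1 * x0 = x0 * x1) (b : x2 * x0 = x0 * x2) (c : x2 * x1 = x1 * x2)
    (d : x1 * y0 = y0 * x1) (e : x2 * y0 = y0 * x2) (f : x2 * y1 = y1 * x2)
    (g : y1 * x0 = x0 * y1) (h : y2 * x0 = x0 * y2) (i : y2 * x1 = x1 * y2) :
    x0 * x1 * x2 * (y0 * y1 * y2) * (x0 * x1 * x2) =
      (x0 * y0 * x0) * (x1 * y1 * x1) * (x2 * y2 * x2) := by
  calc x0 * x1 * x2 * (y0 * y1 * y2) * (x0 * x1 * x2)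
      = x0 * x1 * (x2 * y0) * y1 * (y2 * x0) * x1 * x2 := by group
    _ = x0 * (x1 * y0) * (x2 * y1) * x0 * (y2 * x1) * x2 := by rw [e, h]; group
    _ = x0 * y0 * x1 * y1 * (x2 * x0) * x1 * y2 * x2 := by rw [d, f, i]; group
    _ = x0 * y0 * x1 * (y1 * x0) * (x2 * x1) * y2 * x2 := by rw [b]; group
    _ = x0 * y0 * (x1 * x0) * y1 * x1 * x2 * y2 * x2 := by rw [g, c]; group
    _ = _ := by rw [a]; group

/-- the product of three root elements -/
theorem YYY {v : Fin 4 → ℤ} (h : Os v) (s t : K) :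
    Y φ v s * Y φ (-v) t * Y φ v s =
      (X good4 v s * X good4 (-v) t * X good4 v s) *
      (X good4 (tri v) (φ s) * X good4 (-tri v) (φ t) * X good4 (tri v) (φ s)) *
      (X good4 (tri (tri v)) (φ (φ s)) * X good4 (-tri (tri v)) (φ (φ t)) *
        X good4 (tri (tri v)) (φ (φ s))) := by
  obtain ⟨h1, h2, h3⟩ := h
  have g1 : ip B4 (tri v) v = 0 := by rw [ip_comm good4, h1]
  have g2 : ip B4 (tri (tri v)) v = 0 := by rw [ip_comm good4, h2]
  have g3 : ip B4 (tri (tri v)) (tri v) = 0 := by rw [ip_comm good4, h3]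
  unfold Y
  rw [tri_neg, tri_neg]
  refine tri_group (X_comm good4 (by rw [g1]) _ _) (X_comm good4 (by rw [g2]) _ _)
    (X_comm good4 (by rw [g3]) _ _) (X_comm good4 (by rw [ip_neg_right, g1]; norm_num) _ _)
    (X_comm good4 (by rw [ip_neg_right, g2]; norm_num) _ _)
    (X_comm good4 (by rw [ip_neg_right, g3]; norm_num) _ _)
    (X_comm good4 (by rw [ip_neg_left, g1]; norm_num) _ _)
    (X_comm good4 (by rw [ip_neg_left, g2]; norm_num) _ _)
    (X_comm good4 (by rw [ip_neg_left, g3]; norm_num) _ _)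

theorem nnn_eq {v : Fin 4 → ℤ} (h : Os v) :
    (nn good4 v * nn good4 (tri v) * nn good4 (tri (tri v)) : GLM B4 K) =
      Y φ v 1 * Y φ (-v) 1 * Y φ v 1 := by
  rw [YYY h]
  simp only [map_one]
  rfl

/-- scaling of a short root element -/
theorem cj_scale [Finite K] (hK : (2 : K) = 0) (hφ : ∀ x, φ (φ (φ x)) = x) {u : K} (hu : u ≠ 0) :
    CjH (TG φ) (Y φ ![0, 1, 1, 1] 1) (Y φ ![0, 1, 1, 1] u) := by
  obtain ⟨q, hq⟩ := sq_unit hK hu 1
  rw [pow_one] at hq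
  set v : Fin 4 → ℤ := ![0, 1, 1, 1] with hv
  have hne : tri v ≠ v := by rw [hv]; decide +kernel
  have hne' : tri (-v) ≠ -v := by rw [hv]; decide +kernel
  have o : Os v := by rw [hv]; decide +kernel
  have r0 : ip B4 v v = 2 := by rw [hv]; decide +kernel
  have r1 : ip B4 (tri v) (tri v) = 2 := by rw [ip_tri, r0]
  have r2 : ip B4 (tri (tri v)) (tri (tri v)) = 2 := by rw [ip_tri, r1]
  obtain ⟨w, hw⟩ : ∃ w, ip B4 v w = 1 := ⟨![0, 1, 0, 0], by rw [hv]; decide +kernel⟩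
  have hw1 : ip B4 (tri v) (tri w) = 1 := by rw [ip_tri, hw]
  have hw2 : ip B4 (tri (tri v)) (tri (tri w)) = 1 := by rw [ip_tri, hw1]
  have q0 : φ (q : K) ≠ 0 := fun h => q.ne_zero (φ.injective (by rw [h, map_zero]))
  have q00 : φ (φ (q : K)) ≠ 0 := fun h => q0 (φ.injective (by rw [h, map_zero]))
  set q1 : Kˣ := Units.mk0 (φ (q : K)) q0 with hq1
  set q2 : Kˣ := Units.mk0 (φ (φ (q : K))) q00 with hq2
  have e1 : (q1 : K) = φ (q : K) := rfl
  have e2 : (q2 : K) = φ (φ (q : K)) := rfl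
  have i1 : ((q1⁻¹ : Kˣ) : K) = φ ((q⁻¹ : Kˣ) : K) := by
    rw [Units.val_inv_eq_inv_val, Units.val_inv_eq_inv_val, map_inv₀, e1]
  have i2 : ((q2⁻¹ : Kˣ) : K) = φ (φ ((q⁻¹ : Kˣ) : K)) := by
    rw [Units.val_inv_eq_inv_val, Units.val_inv_eq_inv_val, map_inv₀, map_inv₀, e2]
  have n1 : Y φ v (q : K) * Y φ (-v) ((q⁻¹ : Kˣ) : K) * Y φ v (q : K) =
      (HH B4 v q * nn good4 v) * (HH B4 (tri v) q1 * nn good4 (tri v)) *
      (HH B4 (tri (tri v)) q2 * nn good4 (tri (tri v))) := by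
    rw [YYY o, ← HH_rel good4 r0 hw q, ← HH_rel good4 r1 hw1 q1, ← HH_rel good4 r2 hw2 q2,
      i1, i2, e1, e2]
  have n2 := nnn_eq (φ := φ) o
  have m1 : Y φ v (q : K) * Y φ (-v) ((q⁻¹ : Kˣ) : K) * Y φ v (q : K) ∈ TG φ :=
    Subgroup.mul_mem _ (Subgroup.mul_mem _ (Y_tg hφ hne _) (Y_tg hφ hne' _)) (Y_tg hφ hne _)
  have m2 : Y φ v 1 * Y φ (-v) 1 * Y φ v 1 ∈ TG φ :=
    Subgroup.mul_mem _ (Subgroup.mul_mem _ (Y_tg hφ hne _) (Y_tg hφ hne' _)) (Y_tg hφ hne _)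
  obtain ⟨o1, o2, o3⟩ := o
  have g1 : ip B4 (tri v) v = 0 := by rw [ip_comm good4, o1]
  have g2 : ip B4 (tri (tri v)) v = 0 := by rw [ip_comm good4, o2]
  have g3 : ip B4 (tri (tri v)) (tri v) = 0 := by rw [ip_comm good4, o3]
  have rfo : ∀ {a b : Fin 4 → ℤ}, ip B4 a b = 0 → rf B4 a b = b := by
    intro a b h; unfold rf; rw [h, zero_smul, sub_zero]
  have k1 : (nn good4 v * HH B4 (tri v) q1 : GLM B4 K) = HH B4 (tri v) q1 * nn good4 v := by
    rw [nn_HH good4 r0, rfo o1]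
  have k2 : (nn good4 v * HH B4 (tri (tri v)) q2 : GLM B4 K) =
      HH B4 (tri (tri v)) q2 * nn good4 v := by
    rw [nn_HH good4 r0, rfo o2]
  have k3 : (nn good4 (tri v) * HH B4 (tri (tri v)) q2 : GLM B4 K) =
      HH B4 (tri (tri v)) q2 * nn good4 (tri v) := by
    rw [nn_HH good4 r1, rfo o3]
  have hT : HH B4 v q * HH B4 (tri v) q1 * HH B4 (tri (tri v)) q2 ∈ TG φ := by
    have h := Subgroup.mul_mem _ m1 (Subgroup.inv_mem _ m2)
    rw [n1, ← n2] at h
    convert h using 1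
    generalize (HH B4 v q : GLM B4 K) = h0 at *
    generalize (HH B4 (tri v) q1 : GLM B4 K) = h1 at *
    generalize (HH B4 (tri (tri v)) q2 : GLM B4 K) = h2 at *
    generalize (nn good4 v : GLM B4 K) = w0 at *
    generalize (nn good4 (tri v) : GLM B4 K) = w1 at *
    generalize (nn good4 (tri (tri v)) : GLM B4 K) = w2 at *
    symm
    calc h0 * w0 * (h1 * w1) * (h2 * w2) * (w0 * w1 * w2)⁻¹
        = h0 * (w0 * h1) * (w1 * h2) * w2 * (w0 * w1 * w2)⁻¹ := by group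
      _ = h0 * h1 * (w0 * h2) * w1 * w2 * (w0 * w1 * w2)⁻¹ := by rw [k1, k3]; group
      _ = h0 * h1 * h2 := by rw [k2]; group
  have s0 : ((q ^ (2 : ℤ) : Kˣ) : K) = u := by
    rw [show (q ^ (2 : ℤ) : Kˣ) = q ^ 2 from rfl, Units.val_pow_eq_pow_val, hq]
  have s1 : ((q1 ^ (2 : ℤ) : Kˣ) : K) = φ u := by
    rw [show (q1 ^ (2 : ℤ) : Kˣ) = q1 ^ 2 from rfl, Units.val_pow_eq_pow_val, e1, ← map_pow, hq]
  have s2 : ((q2 ^ (2 : ℤ) : Kˣ) : K) = φ (φ u) := by
    rw [show (q2 ^ (2 : ℤ) : Kˣ) = q2 ^ 2 from rfl, Units.val_pow_eq_pow_val, e2, ← map_pow,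
      ← map_pow, hq]
  have t0 : ∀ {a b : Fin 4 → ℤ} {p : Kˣ} {s : K}, ip B4 a b = 0 →
      (HH B4 a p * X good4 b s : GLM B4 K) = X good4 b s * HH B4 a p := by
    intro a b p s h
    rw [HH_X good4, h, zpow_zero, Units.val_one, one_mul]
  have t2 : ∀ {a : Fin 4 → ℤ} {p : Kˣ}, ip B4 a a = 2 →
      (HH B4 a p * X good4 a 1 : GLM B4 K) = X good4 a ((p ^ (2 : ℤ) : Kˣ) : K) * HH B4 a p := by
    intro a p h
    rw [HH_X good4, h, mul_one]
  refine ⟨_, hT, ?_⟩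
  rw [mul_inv_eq_iff_eq_mul]
  unfold Y
  rw [map_one, map_one]
  have b0 := t2 (p := q) r0
  have b1 := t2 (p := q1) r1
  have b2 := t2 (p := q2) r2
  rw [s0] at b0
  rw [s1] at b1
  rw [s2] at b2
  have c01 := t0 (p := q) (s := φ u) o1
  have c02 := t0 (p := q) (s := φ (φ u)) o2
  have c10 := t0 (p := q1) (s := (1 : K)) g1
  have c12 := t0 (p := q1) (s := φ (φ u)) o3
  have c20 := t0 (p := q2) (s := (1 : K)) g2
  have c21 := t0 (p := q2) (s := (1 : K)) g3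
  generalize (HH B4 v q : GLM B4 K) = h0 at *
  generalize (HH B4 (tri v) q1 : GLM B4 K) = h1 at *
  generalize (HH B4 (tri (tri v)) q2 : GLM B4 K) = h2 at *
  generalize (X good4 v 1 : GLM B4 K) = x0 at *
  generalize (X good4 (tri v) 1 : GLM B4 K) = x1 at *
  generalize (X good4 (tri (tri v)) 1 : GLM B4 K) = x2 at *
  generalize (X good4 v u : GLM B4 K) = z0 at *
  generalize (X good4 (tri v) (φ u) : GLM B4 K) = z1 at *
  generalize (X good4 (tri (tri v)) (φ (φ u)) : GLM B4 K) = z2 at *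
  calc h0 * h1 * h2 * (x0 * x1 * x2) = h0 * h1 * (h2 * x0) * x1 * x2 := by group
    _ = h0 * (h1 * x0) * (h2 * x1) * x2 := by rw [c20]; group
    _ = (h0 * x0) * (h1 * x1) * (h2 * x2) := by rw [c10, c21]; group
    _ = z0 * (h0 * z1) * (h1 * z2) * h2 := by rw [b0, b1, b2]; group
    _ = z0 * z1 * (h0 * z2) * h1 * h2 := by rw [c01, c12]; group
    _ = z0 * z1 * z2 * (h0 * h1 * h2) := by rw [c02]; group

/-- the monomial involution is conjugate to a short root element -/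
theorem cj_mono (hK : (2 : K) = 0) (hφ : ∀ x, φ (φ (φ x)) = x) :
    CjH (TG φ) (Y φ ![0, 1, 1, 1] 1) (NN good4 W3 : GLM B4 K) := by
  have o : Os ![1, 0, 0, 1] := os 1
  have e1 : (NN good4 W3 : GLM B4 K) = Y φ ![1, 0, 0, 1] 1 * Y φ ![-1, 0, 0, -1] 1 *
      Y φ ![1, 0, 0, 1] 1 := by
    have := nnn_eq (φ := φ) (K := K) o
    rw [show tri ![1, 0, 0, 1] = ![0, 1, 0, 1] by decide +kernel,
      show tri ![0, 1, 0, 1] = ![0, 0, 1, 1] by decide +kernel,
      show -(![1, 0, 0, 1] : Fin 4 → ℤ) = ![-1, 0, 0, -1] by decide +kernel] at this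
    rw [← this]
    show nn good4 _ * (nn good4 _ * (nn good4 _ * 1)) = _
    rw [mul_one, mul_assoc]
  have m2 : (NN good4 W2 : GLM B4 K) ∈ TG φ := by
    show nn good4 ![1, 1, 1, 2] * 1 ∈ TG φ
    rw [mul_one]
    unfold nn
    exact Subgroup.mul_mem _ (Subgroup.mul_mem _ (X_tg (by decide +kernel) (map_one φ))
      (X_tg (by decide +kernel) (map_one φ))) (X_tg (by decide +kernel) (map_one φ))
  have c1 : CjH (TG φ) (Y φ ![-1, 0, 0, -1] 1) (Y φ ![0, 1, 1, 1] 1) := by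
    refine ⟨_, m2, ?_⟩
    rw [NN_Y hK ok2 1 (v' := ![0, 1, 1, 1]) (by decide +kernel)]
    group
  refine c1.symm.trans ⟨Y φ ![1, 0, 0, 1] 1, Y_tg hφ (by decide +kernel) _, ?_⟩
  rw [e1, inv_eq_of_mul_eq_one_left (Y_two hK o 1)]

/-- the upper bound -/
theorem admG' [Finite K] (hK : (2 : K) = 0) (hφ : ∀ x, φ (φ (φ x)) = x) {u : K} (u0 : u ≠ 0)
    (u1 : u ≠ 1) (hgen : ∀ x : K, φ x = x → x ≠ 0 → ∃ k : ℕ, x = Tr φ u ^ k)
    (hdeg : (∀ x, φ x = x) ∨ φ u ≠ u) : H47Inv.Admissible ↥(TG φ) 5 := by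
  have o : Os ![0, 1, 1, 1] := os 5
  have u2 : 1 + u ≠ 0 := fun h => u1 (by linear_combination h - hK)
  have hne : tri ![0, 1, 1, 1] ≠ ![0, 1, 1, 1] := by decide +kernel
  have ha : Y φ ![0, 1, 1, 1] 1 ∈ TG φ := Y_tg hφ hne _
  have c := XY_comm (φ := φ) (z := ![0, 0, 0, 1]) (v := ![0, 1, 1, 1]) (by decide +kernel)
    (1 : K) 1
  have ab : Y φ ![0, 1, 1, 1] 1 * (X good4 ![0, 0, 0, 1] 1 * Y φ ![0, 1, 1, 1] u) =
      X good4 ![0, 0, 0, 1] (1 : K) * Y φ ![0, 1, 1, 1] (1 + u) := by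
    rw [← mul_assoc, ← c, mul_assoc, Y_add o]
  refine asmG (c := NN good4 W3) ha (Y_two hK o 1) ?_ ?_ ?_ (cj_mono hK hφ)
    (fun L h1 h2 h3 => gen3 hK hφ hgen hdeg h1 h2 h3)
  · rw [ab, mul_assoc, Y_add o, add_comm u 1]
  · exact (cj_scale hK hφ u0).trans (cj_long hK hφ u0)
  · rw [ab]
    exact (cj_scale hK hφ u2).trans (cj_long hK hφ u2)

/-- the fixed field -/
def fixf (φ : K ≃+* K) : Subfield K where
  carrier := {x | φ x = x}
  mul_mem' {a b} ha hb := by show φ (a * b) = a * b; rw [map_mul, ha, hb]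
  one_mem' := map_one φ
  add_mem' {a b} ha hb := by show φ (a + b) = a + b; rw [map_add, ha, hb]
  zero_mem' := map_zero φ
  neg_mem' {a} ha := by show φ (-a) = -a; rw [map_neg, ha]
  inv_mem' a ha := by show φ a⁻¹ = a⁻¹; rw [map_inv₀, ha]

/-- the upper bound -/
theorem admG [Finite K] (hK : (2 : K) = 0) (hφ : ∀ x, φ (φ (φ x)) = x)
    (hn : φ = RingEquiv.refl K → Nat.card K ≠ 2) : H47Inv.Admissible ↥(TG φ) 5 := by
  by_cases hid : ∀ x, φ x = x
  · have hc := hn (RingEquiv.ext hid)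
    obtain ⟨u, hu, hg⟩ := exists_gen K
    have hT : Tr φ u = u := by
      unfold Tr; rw [hid, hid]; linear_combination u * hK
    refine admG' hK hφ (u := u) hu ?_ (fun x _ h0 => ?_) (Or.inl hid)
    · rintro rfl
      apply hc
      have h2 : ∀ x : K, x = 0 ∨ x = 1 := by
        intro x
        by_cases h : x = 0
        · exact Or.inl h
        · obtain ⟨k, hk⟩ := hg x h
          exact Or.inr (by rw [hk, one_pow])
      have e : (Set.univ : Set K) = {0, 1} := by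
        ext x; simpa using h2 x
      have := Set.ncard_univ K
      rw [← this, e, Set.ncard_pair zero_ne_one]
    · rw [hT]; exact hg x h0
  · push Not at hid
    obtain ⟨y, hy⟩ := hid
    obtain ⟨t, ht, hg⟩ := exists_gen ↥(fixf φ)
    have ft : φ (t : K) = t := t.2
    have hne : φ ((t : K) + (y + φ y)) ≠ (t : K) + (y + φ y) := by
      intro h
      rw [map_add, map_add, ft] at h
      have h2 : φ (φ y) = y := by linear_combination h
      have h3 := hφ y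
      rw [h2] at h3
      exact hy h3
    have hT : Tr φ ((t : K) + (y + φ y)) = t := by
      unfold Tr
      rw [map_add, map_add, map_add, map_add, hφ, ft, ft]
      linear_combination ((t : K) + y + φ y + φ (φ y)) * hK
    refine admG' hK hφ (u := (t : K) + (y + φ y)) ?_ ?_ (fun x hx h0 => ?_) (Or.inr hne)
    · intro h; rw [h, map_zero] at hne; exact hne rfl
    · intro h; rw [h, map_one] at hne; exact hne rfl
    · rw [hT]
      obtain ⟨k, hk⟩ := hg ⟨x, hx⟩ (fun h => h0 (congrArg Subtype.val h))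
      exact ⟨k, by have := congrArg Subtype.val hk; simpa using this⟩

end H41G
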